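import Mathlib

/-!
# Stable subspaces and semisimplicity
-/

set_option autoImplicit false

namespace Pool.Agent.W5h2.SL

/-- stable under the operators -/
def Stab {K Γ Q : Type} [Field K] [AddCommGroup Q] [Module K Q] (r : Γ → Module.End K Q)
    (U : Submodule K Q) : Prop := ∀ γ, ∀ u ∈ U, r γ u ∈ U

/-- every stable subspace has a stable complement -/
def Semi {K Γ Q : Type} [Field K] [AddCommGroup Q] [Module K Q] (r : Γ → Module.End K Q) : Prop :=
  ∀ U, Stab r U → ∃ U', Stab r U' ∧ IsCompl U U'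

/-- the quotient `G / F` is semisimple: every stable subspace `U` between `F` and `G` has a stable
complement `U'`, that is, `U ⊓ U' = F` and `U ⊔ U' = G` -/
def SemiInt {K Γ Q : Type} [Field K] [AddCommGroup Q] [Module K Q] (r : Γ → Module.End K Q)
    (F G : Submodule K Q) : Prop :=
  ∀ U, Stab r U → F ≤ U → U ≤ G → ∃ U', Stab r U' ∧ F ≤ U' ∧ U' ≤ G ∧ U ⊓ U' = F ∧ U ⊔ U' = G

end Pool.Agent.W5h2.SL
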