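import Mathlib

/-!
# The brackets with the radical act nilpotently
-/

set_option autoImplicit false

open Module LieAlgebra LieModule

namespace Pool.Agent.W5h2.SL

/-- algebraically closed coefficients -/
theorem nilp_closed {F : Type*} [Field F] [CharZero F] [IsAlgClosed F] {L : Type*} [LieRing L]
    [LieAlgebra F L] [FiniteDimensional F L] :
    ∀ (n : ℕ) (M : Type*) [AddCommGroup M] [Module F M] [LieRingModule L M] [LieModule F L M]
      [FiniteDimensional F M], finrank F M ≤ n →
      ∀ z ∈ (⁅(⊤ : LieIdeal F L), radical F L⁆ : LieIdeal F L), IsNilpotent (toEnd F L M z) := by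
  intro n
  induction n with
  | zero =>
    intro M _ _ _ _ _ hM z _
    have : Subsingleton M := finrank_zero_iff.1 (Nat.le_zero.1 hM)
    exact ⟨1, LinearMap.ext fun m => Subsingleton.elim _ _⟩
  | succ n ih =>
    intro M _ _ _ _ _ hM z hz
    by_cases htriv : Subsingleton M
    · exact ⟨1, LinearMap.ext fun m => Subsingleton.elim _ _⟩
    have hnt : Nontrivial M := not_subsingleton_iff_nontrivial.1 htriv
    obtain ⟨χ, hχ⟩ : ∃ χ : Module.Dual F (radical F L), Nontrivial (weightSpace M χ) :=
      exists_nontrivial_weightSpace_of_isSolvable F (radical F L) M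
    let N : LieSubmodule F L M := weightSpaceOfIsLieTower F M χ
    have hN : Nontrivial N := hχ
    have hmem : ∀ m ∈ N, ∀ (y : L) (hy : y ∈ radical F L), ⁅y, m⁆ = χ ⟨y, hy⟩ • m := by
      intro m hm y hy
      have h1 : ∀ (y : radical F L), ⁅y, m⁆ = χ y • m := by
        have h2 : m ∈ weightSpace M χ := hm
        rwa [mem_weightSpace] at h2
      exact h1 ⟨y, hy⟩
    -- the brackets kill `N`
    have hk : ∀ z ∈ (⁅(⊤ : LieIdeal F L), radical F L⁆ : LieIdeal F L), ∀ m ∈ N, ⁅z, m⁆ = 0 := by
      intro z hz
      rw [← LieSubmodule.mem_toSubmodule, LieSubmodule.lieIdeal_oper_eq_linear_span'] at hz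
      induction hz using Submodule.span_induction with
      | mem z hz =>
        obtain ⟨x, -, y, hy, rfl⟩ := hz
        intro m hm
        rw [lie_lie, hmem m hm y hy, hmem _ (N.lie_mem hm) y hy, lie_smul, sub_self]
      | zero => intro m _; exact zero_lie m
      | add a b _ _ ha hb => intro m hm; rw [add_lie, ha m hm, hb m hm, add_zero]
      | smul c a _ ha => intro m hm; rw [smul_lie, ha m hm, smul_zero]
    have hlt : finrank F (M ⧸ N) ≤ n := by
      have h1 : finrank F (M ⧸ N.toSubmodule) + finrank F N.toSubmodule = finrank F M :=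
        Submodule.finrank_quotient_add_finrank _
      have h2 : 0 < finrank F N.toSubmodule := by
        have : Nontrivial N.toSubmodule := hN
        exact finrank_pos
      change finrank F (M ⧸ N.toSubmodule) ≤ n
      omega
    have : FiniteDimensional F (M ⧸ N) := by
      change FiniteDimensional F (M ⧸ N.toSubmodule)
      infer_instance
    obtain ⟨k, hk'⟩ := ih (M ⧸ N) hlt z hz
    refine ⟨k + 1, LinearMap.ext fun m => ?_⟩
    have h1 : ∀ j : ℕ, LieSubmodule.Quotient.mk' N (((toEnd F L M z) ^ j) m) =
        ((toEnd F L (M ⧸ N) z) ^ j) (LieSubmodule.Quotient.mk' N m) := by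
      intro j
      induction j with
      | zero => rfl
      | succ j ihj => rw [pow_succ', pow_succ', Module.End.mul_apply, Module.End.mul_apply, ← ihj]; rfl
    have h2 : ((toEnd F L M z) ^ k) m ∈ N := by
      rw [← LieSubmodule.Quotient.mk_eq_zero, h1, hk']
      rfl
    rw [pow_succ', Module.End.mul_apply]
    exact hk z hz _ h2

open TensorProduct in
/-- the brackets with the radical act nilpotently -/
theorem nilp {K : Type*} [Field K] [CharZero K] {L : Type*} [LieRing L]
    [LieAlgebra K L] [FiniteDimensional K L] (M : Type*) [AddCommGroup M] [Module K M]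
    [LieRingModule L M] [LieModule K L M] [FiniteDimensional K M] (z : L)
    (hz : z ∈ (⁅(⊤ : LieIdeal K L), radical K L⁆ : LieIdeal K L)) :
    IsNilpotent (toEnd K L M z) := by
  let A := AlgebraicClosure K
  have h1 : (radical K L).baseChange A ≤ radical A (A ⊗[K] L) := by
    rw [← LieIdeal.solvable_iff_le_radical]
    obtain ⟨k, hk⟩ := IsSolvable.solvable K (radical K L)
    rw [LieIdeal.derivedSeries_eq_bot_iff] at hk
    refine IsSolvable.mk (k := k) (R := A) ((LieIdeal.derivedSeries_eq_bot_iff _ k).mpr ?_)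
    rw [derivedSeriesOfIdeal_baseChange, hk, LieSubmodule.baseChange_bot]
  have h2 : (1 : A) ⊗ₜ[K] z ∈
      (⁅(⊤ : LieIdeal A (A ⊗[K] L)), radical A (A ⊗[K] L)⁆ : LieIdeal A (A ⊗[K] L)) := by
    have h3 : (1 : A) ⊗ₜ[K] z ∈
      (⁅(⊤ : LieIdeal K L), radical K L⁆ : LieIdeal K L).baseChange A :=
      LieSubmodule.tmul_mem_baseChange_of_mem 1 hz
    rw [LieSubmodule.lie_baseChange] at h3
    exact LieSubmodule.mono_lie le_top h1 h3
  have h4 := nilp_closed (F := A) (L := A ⊗[K] L) _ (A ⊗[K] M) le_rfl _ h2
  rw [LieModule.toEnd_baseChange] at h4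
  have hbc_inj : Function.Injective (End.baseChangeHom K A M) :=
    LinearMap.baseChangeHom_injective K M A
  exact (IsNilpotent.map_iff hbc_inj).1 h4

end Pool.Agent.W5h2.SL
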