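import Mathlib
import Pool.Agent.W5h2.SL.Bas
import Pool.Agent.W5h2.SL.LieA
import Pool.Agent.Helper156.RWF.J12512

/-!
# Semisimple representations of a group together with a Lie algebra
-/

set_option autoImplicit false
set_option linter.unusedSectionVars false

open Module LieAlgebra LieModule

namespace Pool.Agent.W5h2.SL

attribute [local instance 100] LieRing.ofAssociativeRing

/-- compatible actions of a group and a Lie algebra -/
structure Act {K Γ L Q : Type} [Field K] [AddCommGroup Q] [Module K Q] [Group Γ] [LieRing L]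
    [LieAlgebra K L] (r : Γ →* Module.End K Q) (t : L →ₗ⁅K⁆ Module.End K Q)
    (θ : Γ → L ≃ₗ⁅K⁆ L) : Prop where
  comm : ∀ γ x, r γ * t x = t (θ γ x) * r γ
  st : ∀ U, Stab r U → ∀ x, ∀ u ∈ U, t x u ∈ U

section rad

variable {K : Type} [Field K] {L : Type} [LieRing L] [LieAlgebra K L] [FiniteDimensional K L]

theorem rad_equiv (e : L ≃ₗ⁅K⁆ L) {x : L} (hx : x ∈ radical K L) : e x ∈ radical K L := by
  let J : LieIdeal K L := (radical K L).comap (e.symm : L →ₗ⁅K⁆ L)
  have hJ : IsSolvable J := by
    let f : J →ₗ⁅K⁆ radical K L :=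
      { toFun := fun y => ⟨e.symm y, y.2⟩
        map_add' := fun a b => Subtype.ext (by simp)
        map_smul' := fun c a => Subtype.ext (by simp)
        map_lie' := fun {a b} => Subtype.ext (e.symm.map_lie (a : L) (b : L)) }
    have hf : Function.Injective f := by
      intro a b hab
      have h1 : e.symm (a : L) = e.symm (b : L) := congrArg Subtype.val hab
      exact Subtype.ext (e.symm.injective h1)
    exact hf.lieAlgebra_isSolvable
  have h1 : J ≤ radical K L := (LieIdeal.solvable_iff_le_radical K L J).1 hJ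
  apply h1
  change e.symm (e x) ∈ radical K L
  rwa [LieEquiv.symm_apply_apply]

/-- the ideal generated by the brackets with the radical -/
def brad (K L : Type) [Field K] [LieRing L] [LieAlgebra K L] [FiniteDimensional K L] :
    LieIdeal K L := ⁅(⊤ : LieIdeal K L), radical K L⁆

theorem brad_equiv (e : L ≃ₗ⁅K⁆ L) {z : L} (hz : z ∈ brad K L) : e z ∈ brad K L := by
  unfold brad at hz
  rw [← LieSubmodule.mem_toSubmodule, LieSubmodule.lieIdeal_oper_eq_linear_span'] at hz
  induction hz using Submodule.span_induction with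
  | mem z hz =>
    obtain ⟨x, -, y, hy, rfl⟩ := hz
    rw [LieEquiv.map_lie]
    exact LieSubmodule.lie_mem_lie (LieSubmodule.mem_top _) (rad_equiv e hy)
  | zero => rw [map_zero]; exact (brad K L).zero_mem
  | add a b _ _ ha hb => rw [map_add]; exact (brad K L).add_mem ha hb
  | smul c a _ ha => rw [map_smul]; exact (brad K L).smul_mem c ha

theorem lie_mem_brad (x : L) {y : L} (hy : y ∈ radical K L) : ⁅x, y⁆ ∈ brad K L :=
  LieSubmodule.lie_mem_lie (LieSubmodule.mem_top _) hy

end rad

section act

variable {K : Type} [Field K] [CharZero K] {L : Type} [LieRing L] [LieAlgebra K L]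
  [FiniteDimensional K L] {Q : Type} [AddCommGroup Q] [Module K Q] [FiniteDimensional K Q]

/-- a nonzero stable subspace contains a nonzero vector which is killed by the brackets with the
radical -/
theorem exists_inv (t : L →ₗ⁅K⁆ Module.End K Q) (U : Submodule K Q) (hU : U ≠ ⊥)
    (hst : ∀ x, ∀ u ∈ U, t x u ∈ U) : ∃ u ∈ U, u ≠ 0 ∧ ∀ z ∈ brad K L, t z u = 0 := by
  let _ : LieRingModule L Q := LieRingModule.compLieHom Q t
  have _ : LieModule K L Q := LieModule.compLieHom Q t
  let N : LieSubmodule K L Q := { U with lie_mem := fun {x m} hm => hst x m hm }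
  have hNU : ∀ q, q ∈ N ↔ q ∈ U := fun q => Iff.rfl
  have hNt : Nontrivial N := by
    obtain ⟨u, hu, hu0⟩ := Submodule.exists_mem_ne_zero_of_ne_bot hU
    exact ⟨⟨⟨u, hu⟩, 0, fun h => hu0 (congrArg Subtype.val h)⟩⟩
  have hfd : FiniteDimensional K N := FiniteDimensional.finiteDimensional_submodule U
  have hnil : LieModule.IsNilpotent (brad K L) N := by
    rw [LieModule.isNilpotent_iff_forall' (R := K)]
    intro z
    exact nilp N z.1 z.2
  have h1 := LieModule.nontrivial_max_triv_of_isNilpotent K (brad K L) N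
  obtain ⟨⟨m, hm⟩, hm0⟩ := exists_ne (0 : LieModule.maxTrivSubmodule K (brad K L) N)
  refine ⟨m.1, m.2, fun h => hm0 (Subtype.ext (Subtype.ext h)), fun z hz => ?_⟩
  have h2 := (LieModule.mem_maxTrivSubmodule K (brad K L) N m).1 hm ⟨z, hz⟩
  exact congrArg Subtype.val h2

variable {Γ : Type} [Group Γ] {r : Γ →* Module.End K Q} {t : L →ₗ⁅K⁆ Module.End K Q}
  {θ : Γ → L ≃ₗ⁅K⁆ L}

theorem r_inv (r : Γ →* Module.End K Q) (γ : Γ) : r γ * r γ⁻¹ = 1 := by
  rw [← map_mul, mul_inv_cancel, map_one]

theorem r_inv' (r : Γ →* Module.End K Q) (γ : Γ) : r γ⁻¹ * r γ = 1 := by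
  rw [← map_mul, inv_mul_cancel, map_one]

/-- the brackets with the radical act as zero on a semisimple representation of the group -/
theorem brad_zero (h : Act r t θ) (hs : Semi r) {z : L} (hz : z ∈ brad K L) : t z = 0 := by
  let T : Submodule K Q :=
    { carrier := {q | ∀ z ∈ brad K L, t z q = 0}
      zero_mem' := fun z _ => map_zero _
      add_mem' := fun {a b} ha hb z hz => by rw [map_add, ha z hz, hb z hz, add_zero]
      smul_mem' := fun c a ha z hz => by rw [map_smul, ha z hz, smul_zero] }
  have hT : Stab r T := by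
    intro γ q hq z hz
    have h1 := h.comm γ ((θ γ).symm z)
    rw [LieEquiv.apply_symm_apply] at h1
    have h2 := LinearMap.congr_fun h1 q
    rw [Module.End.mul_apply, Module.End.mul_apply] at h2
    rw [← h2, hq _ (brad_equiv _ hz), map_zero]
  obtain ⟨U, hU, hc⟩ := hs T hT
  have hbot : U = ⊥ := by
    by_contra hne
    obtain ⟨u, hu, hu0, hk⟩ := exists_inv t U hne (fun x => h.st U hU x)
    have h1 : u ∈ T := hk
    exact hu0 ((Submodule.disjoint_def.1 hc.disjoint) u h1 hu)
  have htop : T = ⊤ := by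
    have := hc.sup_eq_top
    rwa [hbot, sup_bot_eq] at this
  refine LinearMap.ext fun q => ?_
  have : q ∈ T := by rw [htop]; trivial
  exact this z hz

/-- the semisimple part and the nilpotent part -/
theorem exists_jc (X : Module.End K Q) : ∃ N S : Module.End K Q, N ∈ Algebra.adjoin K {X} ∧
    S ∈ Algebra.adjoin K {X} ∧ IsNilpotent N ∧ S.IsSemisimple ∧ X = N + S := by
  obtain ⟨N, hN, S, hS, h1, h2, h3⟩ := X.exists_isNilpotent_isSemisimple
  exact ⟨N, S, hN, hS, h1, h2, h3⟩

theorem comm_of_adjoin {X A Y : Module.End K Q} (hA : A ∈ Algebra.adjoin K {X})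
    (h : X * Y = Y * X) : A * Y = Y * A := by
  induction hA using Algebra.adjoin_induction with
  | mem a ha => rw [Set.mem_singleton_iff.1 ha, h]
  | algebraMap c => exact Algebra.commutes c Y
  | add a b _ _ ha hb => rw [add_mul, mul_add, ha, hb]
  | mul a b _ _ ha hb => rw [mul_assoc, hb, ← mul_assoc, ha, mul_assoc]

theorem stab_of_adjoin {X A : Module.End K Q} (hA : A ∈ Algebra.adjoin K {X})
    {U : Submodule K Q} (h : ∀ u ∈ U, X u ∈ U) : ∀ u ∈ U, A u ∈ U := by
  induction hA using Algebra.adjoin_induction with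
  | mem a ha => rw [Set.mem_singleton_iff.1 ha]; exact h
  | algebraMap c => intro u hu; exact U.smul_mem c hu
  | add a b _ _ ha hb => intro u hu; exact U.add_mem (ha u hu) (hb u hu)
  | mul a b _ _ ha hb => intro u hu; exact ha _ (hb u hu)

/-- uniqueness of the nilpotent part -/
theorem nil_unique {X N S N' S' : Module.End K Q} (hN : N ∈ Algebra.adjoin K {X})
    (hS : S ∈ Algebra.adjoin K {X}) (hn : IsNilpotent N) (hs : S.IsSemisimple) (hX : X = N + S)
    (hn' : IsNilpotent N') (hs' : S'.IsSemisimple) (hX' : X = N' + S') (hc : N' * S' = S' * N') :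
    N = N' := by
  have hXN : X * N' = N' * X := by rw [hX', add_mul, mul_add, hc]
  have hXS : X * S' = S' * X := by rw [hX', add_mul, mul_add, hc]
  have h1 : N * N' = N' * N := comm_of_adjoin hN hXN
  have h2 : S * S' = S' * S := comm_of_adjoin hS hXS
  have h3 : IsNilpotent (N - N') := Commute.isNilpotent_sub h1 hn hn'
  have h4 : (S' - S).IsSemisimple :=
    Module.End.IsSemisimple.sub_of_commute (Commute.symm h2) hs' hs
  have h5 : N - N' = S' - S := by
    rw [sub_eq_sub_iff_add_eq_add, ← hX, hX', add_comm]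
  rw [← sub_eq_zero]
  exact Module.End.eq_zero_of_isNilpotent_isSemisimple h3 (h5 ▸ h4)

theorem conj_semisimple {u v S : Module.End K Q} (huv : u * v = 1) (hvu : v * u = 1)
    (hs : S.IsSemisimple) : (u * S * v).IsSemisimple := by
  let e : Q ≃ₗ[K] Q := LinearEquiv.ofLinearMap u v huv hvu
  refine (e.isSemisimple_iff (f := S) (u * S * v) ?_).1 hs
  have h1 : (u * S * v) * u = u * S := by rw [mul_assoc, hvu, mul_one]
  exact h1.symm

/-- the elements of the radical act semisimply on a semisimple representation of the group -/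
theorem rad_semisimple (h : Act r t θ) (hs : Semi r) {x : L} (hx : x ∈ radical K L) :
    (t x).IsSemisimple := by
  choose N S hN hS hn hss hX using fun x : L => exists_jc (t x)
  have hcomm : ∀ x y, y ∈ radical K L → t x * t y = t y * t x := by
    intro x y hy
    have h1 := brad_zero h hs (lie_mem_brad x hy)
    rw [LieHom.map_lie, LieRing.of_associative_ring_bracket, sub_eq_zero] at h1
    exact h1
  have hNN : ∀ x ∈ radical K L, ∀ y ∈ radical K L, N x * N y = N y * N x := by
    intro x hx y hy
    refine comm_of_adjoin (hN x) ?_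
    exact (comm_of_adjoin (hN y) (hcomm y x hx)).symm
  have hconj : ∀ γ x, r γ * N x * r γ⁻¹ = N (θ γ x) := by
    intro γ x
    have h1 : t (θ γ x) = r γ * t x * r γ⁻¹ := by
      rw [h.comm, mul_assoc, r_inv, mul_one]
    refine (nil_unique (hN _) (hS _) (hn _) (hss _) (hX _) (N' := r γ * N x * r γ⁻¹)
      (S' := r γ * S x * r γ⁻¹) ?_ (conj_semisimple (r_inv r γ) (r_inv' r γ) (hss x)) ?_ ?_).symm
    · obtain ⟨k, hk⟩ := hn x
      refine ⟨k, ?_⟩
      have h2 : ∀ j : ℕ, (r γ * N x * r γ⁻¹) ^ j = r γ * N x ^ j * r γ⁻¹ := by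
        intro j
        induction j with
        | zero => rw [pow_zero, pow_zero, mul_one, r_inv]
        | succ j ih =>
          rw [pow_succ, ih, pow_succ]
          calc r γ * N x ^ j * r γ⁻¹ * (r γ * N x * r γ⁻¹) =
              r γ * N x ^ j * (r γ⁻¹ * r γ) * N x * r γ⁻¹ := by simp only [mul_assoc]
            _ = _ := by rw [r_inv', mul_one]; simp only [mul_assoc]
      rw [h2, hk, mul_zero, zero_mul]
    · rw [h1, ← add_mul, ← mul_add, ← hX]
    · have h3 : N x * S x = S x * N x := by
        refine comm_of_adjoin (hN x) ?_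
        exact (comm_of_adjoin (hS x) rfl).symm
      calc r γ * N x * r γ⁻¹ * (r γ * S x * r γ⁻¹) =
          r γ * N x * (r γ⁻¹ * r γ) * S x * r γ⁻¹ := by simp only [mul_assoc]
        _ = r γ * (N x * S x) * r γ⁻¹ := by rw [r_inv', mul_one]; simp only [mul_assoc]
        _ = r γ * S x * (r γ⁻¹ * r γ) * N x * r γ⁻¹ := by
            rw [h3, r_inv', mul_one]; simp only [mul_assoc]
        _ = _ := by simp only [mul_assoc]
  let T : Submodule K Q :=
    { carrier := {q | ∀ x ∈ radical K L, N x q = 0}
      zero_mem' := fun z _ => map_zero _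
      add_mem' := fun {a b} ha hb z hz => by rw [map_add, ha z hz, hb z hz, add_zero]
      smul_mem' := fun c a ha z hz => by rw [map_smul, ha z hz, smul_zero] }
  have hT : Stab r T := by
    intro γ q hq x hx
    have h1 := hconj γ ((θ γ).symm x)
    rw [LieEquiv.apply_symm_apply] at h1
    rw [← h1, ← Module.End.mul_apply, mul_assoc, r_inv', mul_one, Module.End.mul_apply,
      hq _ (rad_equiv _ hx), map_zero]
  obtain ⟨U, hU, hc⟩ := hs T hT
  have hbot : U = ⊥ := by
    by_contra hne
    obtain ⟨u, hu, hu0, hk⟩ := Pool.Agent.Helper156.RWF.J12512.aic_common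
      {A | ∃ x ∈ radical K L, A = N x} (by
        rintro _ ⟨x, hx, rfl⟩ _ ⟨y, hy, rfl⟩
        exact hNN x hx y hy) (by
        rintro _ ⟨x, hx, rfl⟩
        exact hn x) _ U le_rfl hne (by
        rintro _ ⟨x, hx, rfl⟩
        exact stab_of_adjoin (hN x) (h.st U hU x))
    have h1 : u ∈ T := fun x hx => hk _ ⟨x, hx, rfl⟩
    exact hu0 ((Submodule.disjoint_def.1 hc.disjoint) u h1 hu)
  have htop : T = ⊤ := by
    have := hc.sup_eq_top
    rwa [hbot, sup_bot_eq] at this
  have h0 : N x = 0 := by
    refine LinearMap.ext fun q => ?_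
    have : q ∈ T := by rw [htop]; trivial
    exact this x hx
  rw [hX x, h0, zero_add]
  exact hss x

end act

end Pool.Agent.W5h2.SL
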