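import Mathlib
import Pool.Agent.W5h2.SL.ActA
import Pool.Agent.Helper156.RWF.J12511

/-!
# Complete reducibility when the radical acts semisimply
-/

set_option autoImplicit false
set_option linter.unusedSectionVars false

open Module LieAlgebra LieModule

namespace Pool.Agent.W5h2.SL

attribute [local instance 100] LieRing.ofAssociativeRing

section quot

variable {K : Type} [Field K] {L : Type} [LieRing L] [LieAlgebra K L] [FiniteDimensional K L]

theorem mk_derived (J : LieIdeal K (L ⧸ radical K L)) (J' : LieIdeal K L)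
    (hJ : ∀ x ∈ J', LieSubmodule.Quotient.mk' (radical K L) x ∈ J) (k : ℕ) :
    ∀ x ∈ derivedSeriesOfIdeal K L k J',
      LieSubmodule.Quotient.mk' (radical K L) x ∈
        derivedSeriesOfIdeal K (L ⧸ radical K L) k J := by
  induction k with
  | zero => exact hJ
  | succ k ih =>
    intro x hx
    rw [derivedSeriesOfIdeal_succ] at hx ⊢
    rw [← LieSubmodule.mem_toSubmodule, LieSubmodule.lieIdeal_oper_eq_linear_span'] at hx
    induction hx using Submodule.span_induction with
    | mem z hz =>
      obtain ⟨a, ha, b, hb, rfl⟩ := hz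
      have h1 : LieSubmodule.Quotient.mk' (radical K L) ⁅a, b⁆ =
          ⁅LieSubmodule.Quotient.mk' (radical K L) a, LieSubmodule.Quotient.mk' (radical K L) b⁆ :=
        rfl
      rw [h1]
      exact LieSubmodule.lie_mem_lie (ih a ha) (ih b hb)
    | zero => rw [map_zero]; exact LieSubmodule.zero_mem _
    | add a b _ _ ha hb => rw [map_add]; exact add_mem ha hb
    | smul c a _ ha => rw [map_smul]; exact SMulMemClass.smul_mem c ha

/-- the quotient by the radical has trivial radical -/
theorem triv_rad : HasTrivialRadical K (L ⧸ radical K L) := by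
  rw [hasTrivialRadical_iff_no_solvable_ideals]
  intro J hJ
  let J' : LieIdeal K L :=
    { carrier := {x | LieSubmodule.Quotient.mk' (radical K L) x ∈ J}
      zero_mem' := by
        change LieSubmodule.Quotient.mk' (radical K L) 0 ∈ J
        rw [map_zero]; exact J.zero_mem
      add_mem' := fun {a b} ha hb => by
        change LieSubmodule.Quotient.mk' (radical K L) (a + b) ∈ J
        rw [map_add]; exact J.add_mem ha hb
      smul_mem' := fun c a ha => by
        change LieSubmodule.Quotient.mk' (radical K L) (c • a) ∈ J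
        rw [map_smul]; exact J.smul_mem c ha
      lie_mem := fun {x m} hm => by
        change LieSubmodule.Quotient.mk' (radical K L) ⁅x, m⁆ ∈ J
        exact J.lie_mem (x := LieSubmodule.Quotient.mk' (radical K L) x) hm }
  obtain ⟨k, hk⟩ := IsSolvable.solvable K J
  rw [LieIdeal.derivedSeries_eq_bot_iff] at hk
  have h1 : derivedSeriesOfIdeal K L k J' ≤ radical K L := by
    intro x hx
    have h2 := mk_derived J J' (fun x hx => hx) k x hx
    rw [hk, LieSubmodule.mem_bot] at h2
    exact (LieSubmodule.Quotient.mk_eq_zero _).1 h2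
  obtain ⟨m, hm⟩ := IsSolvable.solvable K (radical K L)
  rw [LieIdeal.derivedSeries_eq_bot_iff] at hm
  have h3 : derivedSeriesOfIdeal K L (m + k) J' = ⊥ := by
    rw [derivedSeriesOfIdeal_add, eq_bot_iff, ← hm]
    exact derivedSeriesOfIdeal_mono h1 m
  have h4 : J' ≤ radical K L := by
    rw [← LieIdeal.solvable_iff_le_radical]
    exact IsSolvable.mk (k := m + k) (R := K) ((LieIdeal.derivedSeries_eq_bot_iff _ _).mpr h3)
  rw [eq_bot_iff]
  intro y hy
  obtain ⟨x, rfl⟩ := LieSubmodule.Quotient.surjective_mk' (radical K L) y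
  rw [LieSubmodule.mem_bot]
  exact (LieSubmodule.Quotient.mk_eq_zero _).2 (h4 hy)

/-- linear maps which vanish on the radical -/
def liftR {X : Type} [AddCommGroup X] [Module K X] (g : L →ₗ[K] X)
    (h : ∀ y ∈ radical K L, g y = 0) : (L ⧸ radical K L) →ₗ[K] X :=
  Submodule.liftQ (radical K L).toSubmodule g (fun y hy => LinearMap.mem_ker.2 (h y hy))

end quot

section comm

variable {K : Type} [Field K] [CharZero K] {M : Type} [AddCommGroup M] [Module K M]
  [FiniteDimensional K M]

/-- stable subspaces of commuting semisimple endomorphisms are images of equivariant projections -/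
theorem exists_proj_comm (s : Set (Module.End K M)) (hc : ∀ a ∈ s, ∀ b ∈ s, a * b = b * a)
    (hs : ∀ a ∈ s, a.IsSemisimple) (W : Submodule K M) (hW : ∀ a ∈ s, ∀ w ∈ W, a w ∈ W) :
    ∃ P : Module.End K M, (∀ m, P m ∈ W) ∧ (∀ w ∈ W, P w = w) ∧ ∀ a ∈ s, P * a = a * P := by
  let R : Subalgebra K (Module.End K M) := Algebra.adjoin K s
  let _ : CommRing R := Algebra.adjoinCommRingOfComm K hc
  have hRc : ∀ a b : R, (a : Module.End K M) * b = b * a := fun a b =>
    congrArg Subtype.val (mul_comm a b)
  have hR : ∀ a ∈ R, a.IsSemisimple := by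
    intro a ha
    induction ha using Algebra.adjoin_induction with
    | mem a ha => exact hs a ha
    | algebraMap c =>
      have h1 : (algebraMap K (Module.End K M) c) = c • (LinearMap.id : Module.End K M) := by
        rw [Algebra.algebraMap_eq_smul_one]; rfl
      rw [h1]
      exact Module.End.IsSemisimple_smul c Module.End.isSemisimple_id
    | add a b ha hb h1 h2 => exact h1.add_of_commute (hRc ⟨a, ha⟩ ⟨b, hb⟩) h2
    | mul a b ha hb h1 h2 => exact h1.mul_of_commute (hRc ⟨a, ha⟩ ⟨b, hb⟩) h2
  have hred : IsReduced R := by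
    refine ⟨fun a ha => ?_⟩
    obtain ⟨n, hn⟩ := ha
    have h1 : IsNilpotent (a : Module.End K M) := ⟨n, by
      have := congrArg Subtype.val hn
      exact this⟩
    exact Subtype.ext (Module.End.eq_zero_of_isNilpotent_isSemisimple h1 (hR a a.2))
  have hart : IsArtinianRing R := IsArtinianRing.of_finite K R
  have hss : IsSemisimpleRing R := IsArtinianRing.isSemisimpleRing_of_isReduced R
  have hmod : IsSemisimpleModule R M := inferInstance
  have hWR : ∀ a ∈ R, ∀ w ∈ W, a w ∈ W := by
    intro a ha
    induction ha using Algebra.adjoin_induction with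
    | mem a ha => exact hW a ha
    | algebraMap c => intro w hw; exact W.smul_mem c hw
    | add a b _ _ ha hb => intro w hw; exact W.add_mem (ha w hw) (hb w hw)
    | mul a b _ _ ha hb => intro w hw; exact ha _ (hb w hw)
  let WR : Submodule R M :=
    { carrier := W
      add_mem' := fun ha hb => W.add_mem ha hb
      zero_mem' := W.zero_mem
      smul_mem' := fun a x hx => hWR a.1 a.2 x hx }
  obtain ⟨WR', hWR'⟩ := exists_isCompl WR
  let P0 : M →ₗ[R] M := WR.projection WR' hWR'
  have hk : ∀ (c : K) (m : M), (algebraMap K R c) • m = c • m := fun c m => rfl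
  let P : Module.End K M :=
    { toFun := P0
      map_add' := P0.map_add
      map_smul' := fun c w => by rw [RingHom.id_apply, ← hk, P0.map_smul, hk] }
  refine ⟨P, fun m => ?_, fun w hw => ?_, fun a ha => ?_⟩
  · change P0 m ∈ WR
    rw [Submodule.projection_apply]
    exact SetLike.coe_mem _
  · change P0 w = w
    exact Submodule.projection_apply_of_mem_left hWR' hw
  · refine LinearMap.ext fun m => ?_
    exact P0.map_smul (⟨a, Algebra.subset_adjoin ha⟩ : R) m

end comm

section weyl

variable {K : Type} [Field K] [CharZero K] {L : Type} [LieRing L] [LieAlgebra K L]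
  [FiniteDimensional K L] {M : Type} [AddCommGroup M] [Module K M] [FiniteDimensional K M]

theorem brad_le_rad {z : L} (hz : z ∈ brad K L) : z ∈ radical K L :=
  LieSubmodule.lie_le_right _ _ hz

theorem brad_zero' {t : L →ₗ⁅K⁆ Module.End K M} (h : ∀ x ∈ radical K L, (t x).IsSemisimple) {z : L}
    (hz : z ∈ brad K L) : t z = 0 := by
  let _ : LieRingModule L M := LieRingModule.compLieHom M t
  have _ : LieModule K L M := LieModule.compLieHom M t
  have h1 : IsNilpotent (toEnd K L M z) := nilp M z hz
  have h2 : toEnd K L M z = t z := rfl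
  rw [h2] at h1
  exact Module.End.eq_zero_of_isNilpotent_isSemisimple h1 (h z (brad_le_rad hz))

/-- the space of the differences of projections -/
def XS (t : L →ₗ⁅K⁆ Module.End K M) (W : Submodule K M) : Submodule K (Module.End K M) where
  carrier := {φ | (∀ m, φ m ∈ W) ∧ (∀ w ∈ W, φ w = 0) ∧ ∀ y ∈ radical K L, t y * φ = φ * t y}
  zero_mem' := ⟨fun m => W.zero_mem, fun w _ => rfl, fun y _ => by rw [mul_zero, zero_mul]⟩
  add_mem' := fun {a b} ha hb => ⟨fun m => W.add_mem (ha.1 m) (hb.1 m), fun w hw => by
    rw [LinearMap.add_apply, ha.2.1 w hw, hb.2.1 w hw, add_zero], fun y hy => by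
    rw [mul_add, add_mul, ha.2.2 y hy, hb.2.2 y hy]⟩
  smul_mem' := fun c a ha => ⟨fun m => W.smul_mem c (ha.1 m), fun w hw => by
    rw [LinearMap.smul_apply, ha.2.1 w hw, smul_zero], fun y hy => by
    rw [mul_smul_comm, smul_mul_assoc, ha.2.2 y hy]⟩

/-- Complete reducibility of the modules on which the radical acts semisimply. -/
theorem exists_proj_lie {t : L →ₗ⁅K⁆ Module.End K M}
    (h : ∀ x ∈ radical K L, (t x).IsSemisimple) (W : Submodule K M)
    (hW : ∀ x, ∀ w ∈ W, t x w ∈ W) :
    ∃ P : Module.End K M, (∀ m, P m ∈ W) ∧ (∀ w ∈ W, P w = w) ∧ ∀ x, P * t x = t x * P := by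
  have hcomm : ∀ x, ∀ y ∈ radical K L, t x * t y = t y * t x := by
    intro x y hy
    have h1 := brad_zero' h (lie_mem_brad x hy)
    rw [LieHom.map_lie, LieRing.of_associative_ring_bracket, sub_eq_zero] at h1
    exact h1
  obtain ⟨P0, hP1, hP2, hP3⟩ := exists_proj_comm {a | ∃ x ∈ radical K L, a = t x} (by
    rintro _ ⟨x, hx, rfl⟩ _ ⟨y, hy, rfl⟩
    exact hcomm x y hy) (by
    rintro _ ⟨x, hx, rfl⟩
    exact h x hx) W (by
    rintro _ ⟨x, hx, rfl⟩
    exact hW x)
  -- the action of `L` on the space of the differences of projections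
  have hX : ∀ x, ∀ φ ∈ XS t W, t x * φ - φ * t x ∈ XS t W := by
    rintro x φ ⟨h1, h2, h3⟩
    refine ⟨fun m => W.sub_mem (hW x _ (h1 m)) (h1 _), fun w hw => ?_, fun y hy => ?_⟩
    · rw [LinearMap.sub_apply, Module.End.mul_apply, Module.End.mul_apply, h2 w hw,
        h2 _ (hW x w hw), map_zero, sub_zero]
    · have e1 := hcomm x y hy
      have e2 := h3 y hy
      calc t y * (t x * φ - φ * t x) = t y * t x * φ - (t y * φ) * t x := by noncomm_ring
        _ = t x * t y * φ - φ * t y * t x := by rw [← e1, e2]
        _ = t x * (t y * φ) - φ * (t y * t x) := by simp only [mul_assoc]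
        _ = (t x * φ - φ * t x) * t y := by rw [e2, ← e1]; noncomm_ring
  let g : L →ₗ[K] Module.End K (XS t W) :=
    { toFun := fun x =>
        { toFun := fun φ => ⟨t x * φ.1 - φ.1 * t x, hX x φ.1 φ.2⟩
          map_add' := fun a b => Subtype.ext (by
            change t x * (a.1 + b.1) - (a.1 + b.1) * t x =
              (t x * a.1 - a.1 * t x) + (t x * b.1 - b.1 * t x)
            noncomm_ring)
          map_smul' := fun c a => Subtype.ext (by
            change t x * (c • a.1) - (c • a.1) * t x = c • (t x * a.1 - a.1 * t x)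
            rw [mul_smul_comm, smul_mul_assoc, smul_sub]) }
      map_add' := fun x y => LinearMap.ext fun a => Subtype.ext (by
        change t (x + y) * a.1 - a.1 * t (x + y) =
          (t x * a.1 - a.1 * t x) + (t y * a.1 - a.1 * t y)
        rw [map_add]
        noncomm_ring)
      map_smul' := fun c x => LinearMap.ext fun a => Subtype.ext (by
        change t (c • x) * a.1 - a.1 * t (c • x) = c • (t x * a.1 - a.1 * t x)
        rw [map_smul, mul_smul_comm, smul_mul_assoc, smul_sub]) }
  have hg : ∀ x (φ : XS t W), (g x φ).1 = t x * φ.1 - φ.1 * t x := fun _ _ => rfl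
  have hgr : ∀ y ∈ radical K L, g y = 0 := by
    intro y hy
    refine LinearMap.ext fun φ => Subtype.ext ?_
    rw [hg, φ.2.2.2 y hy, sub_self]
    rfl
  let gq : (L ⧸ radical K L) →ₗ[K] Module.End K (XS t W) :=
    liftR (K := K) (L := L) (X := Module.End K (XS t W)) g hgr
  have hgq : ∀ x : L, gq (LieSubmodule.Quotient.mk' (radical K L) x) = g x := fun x => rfl
  let f : (L ⧸ radical K L) →ₗ⁅K⁆ Module.End K (XS t W) :=
    { gq with
      map_lie' := by
        intro a b
        obtain ⟨x, rfl⟩ := LieSubmodule.Quotient.surjective_mk' (radical K L) a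
        obtain ⟨y, rfl⟩ := LieSubmodule.Quotient.surjective_mk' (radical K L) b
        change g ⁅x, y⁆ = g x * g y - g y * g x
        refine LinearMap.ext fun φ => Subtype.ext ?_
        rw [LinearMap.sub_apply, Module.End.mul_apply, Module.End.mul_apply]
        change (g ⁅x, y⁆ φ).1 = (g x (g y φ)).1 - (g y (g x φ)).1
        rw [hg, hg, hg, hg, hg, LieHom.map_lie, LieRing.of_associative_ring_bracket]
        noncomm_ring }
  have hf : ∀ x : L, f (LieSubmodule.Quotient.mk' (radical K L) x) = g x := fun x => rfl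
  let _ : LieRingModule (L ⧸ radical K L) (XS t W) := LieRingModule.compLieHom (XS t W) f
  have _ : LieModule K (L ⧸ radical K L) (XS t W) := LieModule.compLieHom (XS t W) f
  have hact : ∀ (x : L) (φ : XS t W),
      ⁅LieSubmodule.Quotient.mk' (radical K L) x, φ⁆ = g x φ := fun x φ => rfl
  -- the cocycle
  have hD : ∀ x, t x * P0 - P0 * t x ∈ XS t W := by
    intro x
    refine ⟨fun m => W.sub_mem (hW x _ (hP1 m)) (hP1 _), fun w hw => ?_, fun y hy => ?_⟩
    · rw [LinearMap.sub_apply, Module.End.mul_apply, Module.End.mul_apply, hP2 w hw,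
        hP2 _ (hW x w hw), sub_self]
    · have e1 := hcomm x y hy
      have e2 := (hP3 _ ⟨y, hy, rfl⟩).symm
      calc t y * (t x * P0 - P0 * t x) = t y * t x * P0 - (t y * P0) * t x := by noncomm_ring
        _ = t x * t y * P0 - P0 * t y * t x := by rw [← e1, e2]
        _ = t x * (t y * P0) - P0 * (t y * t x) := by simp only [mul_assoc]
        _ = (t x * P0 - P0 * t x) * t y := by rw [e2, ← e1]; noncomm_ring
  let D0 : L →ₗ[K] XS t W :=
    { toFun := fun x => ⟨t x * P0 - P0 * t x, hD x⟩
      map_add' := fun x y => Subtype.ext (by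
        change t (x + y) * P0 - P0 * t (x + y) = (t x * P0 - P0 * t x) + (t y * P0 - P0 * t y)
        rw [map_add]
        noncomm_ring)
      map_smul' := fun c x => Subtype.ext (by
        change t (c • x) * P0 - P0 * t (c • x) = c • (t x * P0 - P0 * t x)
        rw [map_smul, mul_smul_comm, smul_mul_assoc, smul_sub]) }
  have hD0 : ∀ x, (D0 x).1 = t x * P0 - P0 * t x := fun _ => rfl
  let D : (L ⧸ radical K L) →ₗ[K] XS t W :=
    liftR (K := K) (L := L) (X := XS t W) D0 (fun y hy => Subtype.ext (by
      rw [hD0, hP3 _ ⟨y, hy, rfl⟩, sub_self]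
      rfl))
  have hDq : ∀ x : L, D (LieSubmodule.Quotient.mk' (radical K L) x) = D0 x := fun x => rfl
  have hfdq : FiniteDimensional K (L ⧸ radical K L) := by
    change FiniteDimensional K (L ⧸ (radical K L).toSubmodule)
    infer_instance
  have htr : HasTrivialRadical K (L ⧸ radical K L) := triv_rad
  obtain ⟨v, hv⟩ := Pool.Agent.Helper156.RWF.J12511.whitehead_one (K := K)
    (L := L ⧸ radical K L) (XS t W) D (by
      intro a b
      obtain ⟨x, rfl⟩ := LieSubmodule.Quotient.surjective_mk' (radical K L) a
      obtain ⟨y, rfl⟩ := LieSubmodule.Quotient.surjective_mk' (radical K L) b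
      have e : ⁅LieSubmodule.Quotient.mk' (radical K L) x,
          LieSubmodule.Quotient.mk' (radical K L) y⁆ =
            LieSubmodule.Quotient.mk' (radical K L) ⁅x, y⁆ := rfl
      rw [e, hDq, hDq, hDq, hact, hact]
      refine Subtype.ext ?_
      change (D0 ⁅x, y⁆).1 = (g x (D0 y)).1 - (g y (D0 x)).1
      rw [hg, hg, hD0, hD0, hD0, LieHom.map_lie, LieRing.of_associative_ring_bracket]
      noncomm_ring)
  have hv' : ∀ x, t x * P0 - P0 * t x = t x * v.1 - v.1 * t x := by
    intro x
    have h1 := hv (LieSubmodule.Quotient.mk' (radical K L) x)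
    rw [hDq, hact] at h1
    have h2 := congrArg Subtype.val h1
    rwa [hD0, hg] at h2
  refine ⟨P0 - v.1, fun m => W.sub_mem (hP1 m) (v.2.1 m), fun w hw => ?_, fun x => ?_⟩
  · rw [LinearMap.sub_apply, hP2 w hw, v.2.2.1 w hw, sub_zero]
  · have h1 := hv' x
    have h2 : (P0 - v.1) * t x - t x * (P0 - v.1) =
        (t x * v.1 - v.1 * t x) - (t x * P0 - P0 * t x) := by noncomm_ring
    rw [← sub_eq_zero, h2, h1, sub_self]

end weyl

end Pool.Agent.W5h2.SL
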