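import Mathlib
import Pool.Agent.W5h2.SL.Weyl

/-!
# Averaging over a subgroup of finite index
-/

set_option autoImplicit false
set_option linter.unusedSectionVars false

open Module

namespace Pool.Agent.W5h2.SL

variable {K : Type} [Field K] [CharZero K] {Q : Type} [AddCommGroup Q] [Module K Q]
  {Γ : Type} [Group Γ]

theorem avg {r : Γ →* Module.End K Q} {C : Subgroup Γ} (hC : C.FiniteIndex)
    {P : Module.End K Q} (hP : ∀ γ ∈ C, P * r γ = r γ * P) {U : Submodule K Q} (hU : Stab r U)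
    (h1 : ∀ m, P m ∈ U) (h2 : ∀ u ∈ U, P u = u) : ∃ U', Stab r U' ∧ IsCompl U U' := by
  classical
  have : Fintype (Γ ⧸ C) := Fintype.ofFinite _
  let f0 : Γ → Module.End K Q := fun γ => r γ * P * r γ⁻¹
  have hf0 : ∀ a b : Γ, (QuotientGroup.leftRel C) a b → f0 a = f0 b := by
    intro a b hab
    rw [QuotientGroup.leftRel_apply] at hab
    have e1 : b = a * (a⁻¹ * b) := by group
    have e2 := hP _ hab
    have e3 : r (a⁻¹ * b) * r (a⁻¹ * b)⁻¹ = 1 := by rw [← map_mul, mul_inv_cancel, map_one]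
    show r a * P * r a⁻¹ = r b * P * r b⁻¹
    have e4 : r b = r a * r (a⁻¹ * b) := by rw [← map_mul, ← e1]
    have e5 : r b⁻¹ = r (a⁻¹ * b)⁻¹ * r a⁻¹ := by
      rw [← map_mul]
      congr 1
      group
    rw [e4, e5]
    calc r a * P * r a⁻¹ = r a * P * (r (a⁻¹ * b) * r (a⁻¹ * b)⁻¹) * r a⁻¹ := by rw [e3, mul_one]
      _ = r a * (P * r (a⁻¹ * b)) * (r (a⁻¹ * b)⁻¹ * r a⁻¹) := by simp only [mul_assoc]
      _ = r a * (r (a⁻¹ * b) * P) * (r (a⁻¹ * b)⁻¹ * r a⁻¹) := by rw [e2]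
      _ = _ := by simp only [mul_assoc]
  let f : Γ ⧸ C → Module.End K Q := Quotient.lift f0 hf0
  have hf : ∀ γ : Γ, f (γ : Γ ⧸ C) = r γ * P * r γ⁻¹ := fun γ => rfl
  have hfs : ∀ (δ : Γ) (q : Γ ⧸ C), r δ * f q = f (δ • q) * r δ := by
    intro δ q
    induction q using QuotientGroup.induction_on with
    | H γ =>
      rw [show (δ • (γ : Γ ⧸ C)) = ((δ * γ : Γ) : Γ ⧸ C) from rfl, hf, hf, mul_inv_rev, map_mul,
        map_mul]
      have e3 : r δ⁻¹ * r δ = 1 := by rw [← map_mul, inv_mul_cancel, map_one]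
      calc r δ * (r γ * P * r γ⁻¹) = r δ * (r γ * P * r γ⁻¹) * 1 := by rw [mul_one]
        _ = r δ * (r γ * P * r γ⁻¹) * (r δ⁻¹ * r δ) := by rw [e3]
        _ = _ := by simp only [mul_assoc]
  let S : Module.End K Q := ∑ q, f q
  have hS : ∀ δ, r δ * S = S * r δ := by
    intro δ
    show r δ * ∑ q, f q = (∑ q, f q) * r δ
    rw [Finset.mul_sum, Finset.sum_mul]
    simp_rw [hfs]
    exact Fintype.sum_equiv (MulAction.toPerm δ) _ _ (fun q => rfl)
  have hfU : ∀ q m, f q m ∈ U := by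
    intro q m
    induction q using QuotientGroup.induction_on with
    | H γ =>
      rw [hf]
      exact hU γ _ (h1 _)
  have hfu : ∀ q, ∀ u ∈ U, f q u = u := by
    intro q u hu
    induction q using QuotientGroup.induction_on with
    | H γ =>
      rw [hf, Module.End.mul_apply, Module.End.mul_apply, h2 _ (hU _ _ hu),
        ← Module.End.mul_apply, ← map_mul, mul_inv_cancel, map_one]
      rfl
  have hSU : ∀ m, S m ∈ U := by
    intro m
    show (∑ q, f q) m ∈ U
    rw [LinearMap.sum_apply]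
    exact U.sum_mem fun q _ => hfU q m
  set N : K := ((Fintype.card (Γ ⧸ C) : ℕ) : K) with hN
  have hN0 : N ≠ 0 := by
    rw [hN]
    exact_mod_cast (Fintype.card_pos_iff.2 ⟨((1 : Γ) : Γ ⧸ C)⟩).ne'
  have hSu : ∀ u ∈ U, S u = N • u := by
    intro u hu
    show (∑ q, f q) u = N • u
    rw [LinearMap.sum_apply, Finset.sum_congr rfl (fun q _ => hfu q u hu), Finset.sum_const,
      Finset.card_univ, hN, Nat.cast_smul_eq_nsmul]
  refine ⟨LinearMap.ker S, ?_, isCompl_iff.2 ⟨?_, ?_⟩⟩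
  · intro γ u hu
    have h3 : S u = 0 := hu
    show S (r γ u) = 0
    rw [← Module.End.mul_apply, ← hS, Module.End.mul_apply, h3, map_zero]
  · rw [Submodule.disjoint_def]
    intro u hu1 hu2
    have h3 : S u = 0 := hu2
    rw [hSu u hu1] at h3
    exact (smul_eq_zero.1 h3).resolve_left hN0
  · rw [codisjoint_iff, Submodule.eq_top_iff']
    intro m
    have h3 : S (m - N⁻¹ • S m) = 0 := by
      rw [map_sub, map_smul, hSu _ (hSU m), smul_smul, inv_mul_cancel₀ hN0, one_smul, sub_self]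
    have h4 : m = N⁻¹ • S m + (m - N⁻¹ • S m) := by abel
    rw [h4]
    exact Submodule.add_mem_sup (U.smul_mem _ (hSU m)) h3

end Pool.Agent.W5h2.SL
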