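import Mathlib
import Pool.Agent.W5h2.SL.Bas

/-!
# Representations and cohomology theories with a Künneth formula
-/

set_option autoImplicit false
set_option linter.unusedSectionVars false

open Module TensorProduct Filter Topology

namespace Pool.Agent.W5h2.SL

/-- a finite-dimensional vector space over `ℚ_p` with a linear action of `Γ` whose matrix
coefficients are continuous -/
structure GRep (p : ℕ) [Fact p.Prime] (Γ : Type) [Group Γ] [TopologicalSpace Γ] where
  V : Type
  [acg : AddCommGroup V]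
  [mod : Module ℚ_[p] V]
  [fin : FiniteDimensional ℚ_[p] V]
  r : Γ →* Module.End ℚ_[p] V
  cts : ∀ v, ∀ φ : Module.Dual ℚ_[p] V, Continuous fun γ => φ (r γ v)

attribute [instance] GRep.acg GRep.mod GRep.fin

section rep

variable {p : ℕ} [Fact p.Prime] {Γ : Type} [Group Γ] [TopologicalSpace Γ]

/-- the subspaces of the representation -/
abbrev GRep.Sub (R : GRep p Γ) : Type := Submodule ℚ_[p] R.V

/-- the operator given by an element of the group -/
noncomputable def GRep.op (R : GRep p Γ) (γ : Γ) : Module.End ℚ_[p] R.V := R.r γ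

/-- the subspace is stable under the group -/
def GRep.Stable (R : GRep p Γ) (U : R.Sub) : Prop := Stab R.op U

/-- `A ≤ B` are stable subspaces of `R` and the quotient `B / A` is a semisimple representation:
every stable subspace between `A` and `B` has a stable complement in `B` relative to `A` -/
def GRep.SS (R : GRep p Γ) (A B : R.Sub) : Prop :=
  R.Stable A ∧ R.Stable B ∧ A ≤ B ∧ SemiInt R.op A B

/-- the Loewy length of the subrepresentation `U` is at most `m`: there is a chain
`0 = F₀ ≤ … ≤ F_m = U` of stable subspaces with semisimple quotients -/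
def GRep.LoewyLE (R : GRep p Γ) (U : R.Sub) (m : ℕ) : Prop :=
  ∃ F : ℕ → R.Sub, F 0 = ⊥ ∧ F m = U ∧ ∀ j < m, R.SS (F j) (F (j + 1))

/-- the dimension of the subspace -/
noncomputable def GRep.dimS (R : GRep p Γ) (U : R.Sub) : ℝ := finrank ℚ_[p] U

/-- the dimension of the representation -/
noncomputable def GRep.deg (R : GRep p Γ) : ℕ := finrank ℚ_[p] R.V

/-- `R` is the direct sum of the stable subspaces `U i` -/
def GRep.IsGrading (R : GRep p Γ) (U : ℕ → R.Sub) : Prop :=
  (∀ i, R.Stable (U i)) ∧ DirectSum.IsInternal U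

/-- the isomorphisms of the tensor product of `A` and `B` with `C` -/
abbrev Tens (A B C : GRep p Γ) : Type := A.V ⊗[ℚ_[p]] B.V ≃ₗ[ℚ_[p]] C.V

/-- the image of `v ⊗ w` -/
noncomputable def tm {A B C : GRep p Γ} (b : Tens A B C) (v : A.V) (w : B.V) : C.V := b (v ⊗ₜ w)

/-- the isomorphism is equivariant -/
def Equi {A B C : GRep p Γ} (b : Tens A B C) : Prop :=
  ∀ γ v w, tm b (A.op γ v) (B.op γ w) = C.op γ (tm b v w)

/-- the isomorphism maps `U ⊗ U'` into `U''` -/
def Sends {A B C : GRep p Γ} (b : Tens A B C) (U : A.Sub) (U' : B.Sub) (U'' : C.Sub) : Prop :=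
  ∀ v ∈ U, ∀ w ∈ U', tm b v w ∈ U''

end rep

/-- A class `Var` of varieties with products and a dimension, and a graded cohomology theory `H`
on it: nonzero continuous representations `H X` of `Γ` over `ℚ_p` which are direct sums of stable
subspaces `gr X i` (the cohomology in degree `i`), with equivariant graded Künneth isomorphisms
`H X ⊗ H Y ≃ H (X × Y)`. -/
structure Kun (p : ℕ) [Fact p.Prime] (Γ : Type) [Group Γ] [TopologicalSpace Γ]
    (Var : Type) where
  prod : Var → Var → Var
  dim : Var → ℕ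
  dim_prod : ∀ X Y, dim (prod X Y) = dim X + dim Y
  H : Var → GRep p Γ
  nz : ∀ X, Nontrivial (H X).V
  gr : ∀ X, ℕ → (H X).Sub
  grading : ∀ X, (H X).IsGrading (gr X)
  kun : ∀ X Y, Tens (H X) (H Y) (H (prod X Y))
  kun_r : ∀ X Y, Equi (kun X Y)
  kun_gr : ∀ X Y i j, Sends (kun X Y) (gr X i) (gr Y j) (gr (prod X Y) (i + j))

variable {p : ℕ} [Fact p.Prime] {Γ : Type} [Group Γ] [TopologicalSpace Γ]
variable {Var : Type}

/-- the variety `X ^ n × Y` -/
def Kun.pow (T : Kun p Γ Var) (X Y : Var) : ℕ → Var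
  | 0 => Y
  | n + 1 => T.prod X (T.pow X Y n)

/-- `H ^ i (X)` is semisimple -/
def Kun.SemiAt (T : Kun p Γ Var) (X : Var) (i : ℕ) : Prop := (T.H X).SS ⊥ (T.gr X i)

/-- `H (X)` is semisimple -/
def Kun.SemiTot (T : Kun p Γ Var) (X : Var) : Prop := (T.H X).SS ⊥ ⊤

/-- the semisimplicity statement: all cohomology groups `H ^ i (X)` are semisimple -/
def Kun.Semisimple (T : Kun p Γ Var) : Prop := ∀ X i, T.SemiAt X i

/-- the Loewy length of `H ^ i (X)` is at most `m` -/
def Kun.LoewyAt (T : Kun p Γ Var) (X : Var) (i m : ℕ) : Prop :=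
  (T.H X).LoewyLE (T.gr X i) m

/-- the Loewy length of `H (X)` is at most `m` -/
def Kun.LoewyTot (T : Kun p Γ Var) (X : Var) (m : ℕ) : Prop := (T.H X).LoewyLE ⊤ m

/-- the Loewy length of `H ^ i (X)` is bounded by a sublinear function of `i` -/
def Kun.LoewyDeg (T : Kun p Γ Var) : Prop :=
  ∃ f : ℕ → ℕ, Tendsto (fun n => (f n : ℝ) / n) atTop (𝓝 0) ∧ ∀ X i, T.LoewyAt X i (f i)

/-- the Loewy length of `H (X)` is bounded by a sublinear function of `dim X` -/
def Kun.LoewyDim (T : Kun p Γ Var) : Prop :=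
  ∃ f : ℕ → ℕ, Tendsto (fun n => (f n : ℝ) / n) atTop (𝓝 0) ∧ ∀ X, T.LoewyTot X (f (T.dim X))

/-- `H (X)` has a semisimple subquotient of relative dimension at least `c` -/
def Kun.LayerGE (T : Kun p Γ Var) (X : Var) (c : ℝ) : Prop :=
  ∃ A B, (T.H X).SS A B ∧ c * (T.H X).deg ≤ (T.H X).dimS B - (T.H X).dimS A

/-- all semisimple subquotients of `H (X)` have relative dimension at most `c` -/
def Kun.LayersLE (T : Kun p Γ Var) (X : Var) (c : ℝ) : Prop :=
  ∀ A B, (T.H X).SS A B → (T.H X).dimS B - (T.H X).dimS A ≤ c * (T.H X).deg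

/-- `H (X)` has a semisimple subquotient of relative dimension at least `g (dim X)`, where
`g` decays slower than the inverse of the square root -/
def Kun.BigLayer (T : Kun p Γ Var) : Prop :=
  ∃ g : ℕ → ℝ, (∀ n, 0 < g n) ∧ Tendsto (fun n => g n * √n) atTop atTop ∧
    ∀ X, T.LayerGE X (g (T.dim X))

/-- the Loewy length of `H ^ i (X)` is at most `i / r + C` -/
def Kun.SlopeDeg (T : Kun p Γ Var) (r : ℕ) : Prop := ∃ C : ℕ, ∀ X i, T.LoewyAt X i (i / r + C)

/-- the Loewy length of `H (X)` is at most `dim X / r + C` -/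
def Kun.SlopeDim (T : Kun p Γ Var) (r : ℕ) : Prop :=
  ∃ C : ℕ, ∀ X, T.LoewyTot X (T.dim X / r + C)

/-- if `H (X)` and `H (Y)` are semisimple, then so are all `H (X ^ n × Y)` -/
def Kun.GoodPowers (T : Kun p Γ Var) (X : Var) : Prop :=
  (∀ i, T.SemiAt X i) → ∀ Y, (∀ i, T.SemiAt Y i) → ∀ n, T.SemiTot (T.pow X Y n)

/-- if `H ^ i (X)` is not semisimple, then for all `Y` and `n` the Loewy length of
`H ^ (n i + j) (X ^ n × Y)` is larger than `n` unless `H ^ j (Y) = 0`, and all semisimple
subquotients of `H (X ^ n × Y)` have relative dimension at most `√(2 dim H (X) / (n + 1))` -/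
def Kun.BadPowers (T : Kun p Γ Var) (X : Var) : Prop :=
  ∀ i, ¬ T.SemiAt X i → ∀ Y n,
    (∀ j, T.gr Y j ≠ ⊥ → ∀ m ≤ n, ¬ T.LoewyAt (T.pow X Y n) (n * i + j) m) ∧
    T.LayersLE (T.pow X Y n) (√(2 * (T.H X).deg / (n + 1)))

end Pool.Agent.W5h2.SL
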