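import Mathlib
import Pool.Agent.Helper156.RWF.J12831

/-!
# The Lie algebra of a compact group of operators
-/

set_option autoImplicit false
set_option linter.unusedSectionVars false

open Module Filter Topology
open Pool.Agent.Helper156.RWF Pool.Agent.Helper156.RWF.J12439 Pool.Agent.Helper156.RWF.J12441
  Pool.Agent.Helper156.RWF.J12442 Pool.Agent.Helper156.RWF.J12831

namespace Pool.Agent.W5h2.SL

section alg

variable {p : ℕ} [Fact p.Prime]
variable {A : Type} [NormedRing A] [NormedAlgebra ℚ_[p] A] [IsUltrametricDist A] [NormOneClass A]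
  [FiniteDimensional ℚ_[p] A]

theorem pinv_pos : (0 : ℝ) < (p : ℝ)⁻¹ := by
  have : 0 < p := (Fact.out : p.Prime).pos
  positivity

theorem pinv_le_one : (p : ℝ)⁻¹ ≤ 1 := by
  have : (1 : ℝ) ≤ p := by exact_mod_cast (Fact.out : p.Prime).one_lt.le
  exact inv_le_one_of_one_le₀ this

theorem tendsto_ppow : Tendsto (fun m : ℕ => (p : ℚ_[p]) ^ m) atTop (𝓝 0) :=
  tendsto_pow_atTop_nhds_zero_of_norm_lt_one Padic.norm_p_lt_one

theorem p_ne_zero : (p : ℚ_[p]) ≠ 0 := by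
  exact_mod_cast (Fact.out : p.Prime).ne_zero

theorem eventually_small (x : A) (k : ℕ) :
    ∀ᶠ m : ℕ in atTop, ‖(p : ℚ_[p]) ^ m • x‖ ≤ ((p : ℝ)⁻¹) ^ k := by
  have h1 : Tendsto (fun m : ℕ => ‖(p : ℚ_[p]) ^ m • x‖) atTop (𝓝 0) := by
    have h2 := ((tendsto_ppow (p := p)).smul_const x).norm
    rwa [zero_smul, norm_zero] at h2
  exact h1.eventually (ge_mem_nhds (pow_pos pinv_pos k))

/-- an element of the Lie algebra is a limit of difference quotients -/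
theorem lie_limit {G : Set A} {g : Submodule ℚ_[p] A} {k : ℕ} (h : IsLieOf p G g k) {x : A}
    (hx : x ∈ g) : ∃ (a : ℕ → A) (c : ℕ → ℚ_[p]), (∀ m, a m ∈ G) ∧ (∀ m, c m ≠ 0) ∧
      Tendsto c atTop (𝓝 0) ∧ Tendsto (fun m => (c m)⁻¹ • (a m - 1)) atTop (𝓝 x) := by
  obtain ⟨m0, hm0⟩ := eventually_atTop.1 (eventually_small (p := p) x k)
  have hsm : ∀ m, ‖(p : ℚ_[p]) ^ (m + m0) • x‖ ≤ ((p : ℝ)⁻¹) ^ k := fun m =>
    hm0 (m + m0) (Nat.le_add_left _ _)
  have hc : Tendsto (fun m : ℕ => (p : ℚ_[p]) ^ (m + m0)) atTop (𝓝 0) :=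
    (tendsto_add_atTop_iff_nat m0).2 tendsto_ppow
  refine ⟨fun m => E p ((p : ℚ_[p]) ^ (m + m0) • x), fun m => (p : ℚ_[p]) ^ (m + m0),
    fun m => (h.2 _ (hsm m)).2 (g.smul_mem _ hx), fun m => pow_ne_zero _ p_ne_zero, hc, ?_⟩
  rw [tendsto_iff_norm_sub_tendsto_zero]
  have hb : Tendsto (fun m : ℕ => (p : ℝ) * ‖(p : ℚ_[p]) ^ (m + m0)‖ * (‖x‖ * ‖x‖)) atTop
      (𝓝 0) := by
    have h2 := (hc.norm.const_mul (p : ℝ)).mul_const (‖x‖ * ‖x‖)
    rwa [norm_zero, mul_zero, zero_mul] at h2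
  refine squeeze_zero (fun m => norm_nonneg _) (fun m => ?_) hb
  set c : ℚ_[p] := (p : ℚ_[p]) ^ (m + m0) with hcdef
  have hc0 : c ≠ 0 := pow_ne_zero _ p_ne_zero
  have hc1 : 0 < ‖c‖ := norm_pos_iff.2 hc0
  have e1 : c⁻¹ • (E p (c • x) - 1) - x = c⁻¹ • (E p (c • x) - 1 - c • x) := by
    rw [smul_sub c⁻¹ (E p (c • x) - 1) (c • x), smul_smul, inv_mul_cancel₀ hc0, one_smul]
  have e2 := rwq_E2 (p := p) (c • x) ((hsm m).trans (rwq_q k h.1))
  rw [e1, norm_smul, norm_inv]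
  rw [norm_smul] at e2
  calc ‖c‖⁻¹ * ‖E p (c • x) - 1 - c • x‖ ≤ ‖c‖⁻¹ * ((p : ℝ) * (‖c‖ * ‖x‖) * (‖c‖ * ‖x‖)) :=
        mul_le_mul_of_nonneg_left e2 (inv_nonneg.2 hc1.le)
    _ = (p : ℝ) * ‖c‖ * (‖x‖ * ‖x‖) := by field_simp

theorem lie_conj {G : Set A} {g : Submodule ℚ_[p] A} {k : ℕ} (h : IsLieOf p G g k)
    (hmul : ∀ a ∈ G, ∀ b ∈ G, a * b ∈ G) {u v : A} (hu : u ∈ G) (hv : v ∈ G) (huv : u * v = 1)
    (hvu : v * u = 1) {x : A} (hx : x ∈ g) : u * x * v ∈ g := by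
  obtain ⟨m, h1, h2⟩ := ((eventually_small (p := p) x k).and
    (eventually_small (p := p) (u * x * v) k)).exists
  have h3 : u * ((p : ℚ_[p]) ^ m • x) * v = (p : ℚ_[p]) ^ m • (u * x * v) := by
    rw [mul_smul_comm, smul_mul_assoc]
  have h4 : E p ((p : ℚ_[p]) ^ m • (u * x * v)) ∈ G := by
    rw [← h3, E_conj u v _ huv hvu (h1.trans (rwq_q k h.1))]
    exact hmul _ (hmul _ hu _ ((h.2 _ h1).2 (g.smul_mem _ hx))) _ hv
  have h5 := (h.2 _ h2).1 h4
  have h6 := g.smul_mem ((p : ℚ_[p]) ^ m)⁻¹ h5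
  rwa [smul_smul, inv_mul_cancel₀ (pow_ne_zero _ p_ne_zero), one_smul] at h6

theorem lie_comm {G : Set A} {g : Submodule ℚ_[p] A} {k : ℕ} (h : IsLieOf p G g k) {P : A}
    (hP : ∀ x ∈ g, P * x = x * P) {a : A} (ha : a ∈ G) (ha1 : ‖a - 1‖ ≤ ((p : ℝ)⁻¹) ^ k) :
    P * a = a * P := by
  obtain ⟨x, hx, hxa⟩ := E_surj k h.1 a ha1
  have hxg : x ∈ g := (h.2 x hx).1 (by rw [hxa]; exact ha)
  have hpow : ∀ n : ℕ, P * x ^ n = x ^ n * P := fun n =>
    ((show Commute P x from hP x hxg).pow_right n)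
  have hs := (E_summable (p := p) x (hx.trans (rwq_q k h.1))).hasSum
  have h1 := hs.mul_left P
  have h2 := hs.mul_right P
  have h3 : (fun n : ℕ => P * (((n.factorial : ℚ_[p])⁻¹) • x ^ n)) =
      fun n : ℕ => (((n.factorial : ℚ_[p])⁻¹) • x ^ n) * P := by
    funext n
    rw [mul_smul_comm, smul_mul_assoc, hpow]
  rw [h3] at h1
  have h4 := h1.unique h2
  rw [← hxa]
  exact h4

end alg

attribute [local instance 100] LieRing.ofAssociativeRing

section rep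

variable {p : ℕ} [Fact p.Prime] {Γ : Type} [Group Γ] [TopologicalSpace Γ]
  [IsTopologicalGroup Γ] [CompactSpace Γ]

/-- matrix coefficients are continuous -/
def Cts {Q : Type} [AddCommGroup Q] [Module ℚ_[p] Q] (r : Γ → Module.End ℚ_[p] Q) : Prop :=
  ∀ v, ∀ φ : Module.Dual ℚ_[p] Q, Continuous fun γ => φ (r γ v)

/-- the properties of the Lie algebra of a compact group of operators -/
structure IsLieG {Q : Type} [AddCommGroup Q] [Module ℚ_[p] Q] (r : Γ →* Module.End ℚ_[p] Q)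
    (g : LieSubalgebra ℚ_[p] (Module.End ℚ_[p] Q)) : Prop where
  lim : ∀ x ∈ g, ∃ (γ : ℕ → Γ) (c : ℕ → ℚ_[p]), (∀ m, c m ≠ 0) ∧ Tendsto c atTop (𝓝 0) ∧
    ∀ Λ : Module.Dual ℚ_[p] (Module.End ℚ_[p] Q),
      Tendsto (fun m => Λ ((c m)⁻¹ • (r (γ m) - 1))) atTop (𝓝 (Λ x))
  conj : ∀ γ, ∀ x ∈ g, r γ * x * r γ⁻¹ ∈ g
  comm : ∀ P : Module.End ℚ_[p] Q, (∀ x ∈ g, P * x = x * P) →
    ∃ C : Subgroup Γ, C.FiniteIndex ∧ ∀ γ ∈ C, P * r γ = r γ * P

theorem exists_lieG {Q : Type} [AddCommGroup Q] [Module ℚ_[p] Q] [FiniteDimensional ℚ_[p] Q]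
    [Nontrivial Q] (r : Γ →* Module.End ℚ_[p] Q) (hr : Cts (p := p) (fun γ => r γ)) :
    ∃ g : LieSubalgebra ℚ_[p] (Module.End ℚ_[p] Q), IsLieG r g := by
  let N := finrank ℚ_[p] Q
  let e : Q ≃ₗ[ℚ_[p]] (Fin N → ℚ_[p]) := (finBasis ℚ_[p] Q).equivFun
  have : Nontrivial (Fin N → ℚ_[p]) := e.symm.toEquiv.nontrivial
  have : IsUltrametricDist (EN p N) := clm_ultrametric _
  let Φ : Module.End ℚ_[p] Q ≃ₐ[ℚ_[p]] EN p N :=
    (e.conjAlgEquiv ℚ_[p]).trans (Module.End.toContinuousLinearMap (Fin N → ℚ_[p]))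
  have : FiniteDimensional ℚ_[p] (EN p N) := Φ.toLinearEquiv.finiteDimensional
  have hΦ : ∀ x y, Φ x y = e (x (e.symm y)) := fun x y => rfl
  let R : Γ → EN p N := fun γ => Φ (r γ)
  have hR : Continuous R := by
    rw [continuous_clm_apply]
    intro y
    refine continuous_pi fun i => ?_
    exact hr (e.symm y) ((LinearMap.proj i).comp (e : Q →ₗ[ℚ_[p]] (Fin N → ℚ_[p])))
  have hR1 : R 1 = 1 := by
    show Φ (r 1) = 1
    rw [map_one, map_one]
  have hRm : ∀ a b, R (a * b) = R a * R b := fun a b => by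
    show Φ (r (a * b)) = Φ (r a) * Φ (r b)
    rw [map_mul, map_mul]
  have hmul : ∀ a ∈ Set.range R, ∀ b ∈ Set.range R, a * b ∈ Set.range R := by
    rintro _ ⟨a, rfl⟩ _ ⟨b, rfl⟩
    exact ⟨a * b, hRm a b⟩
  obtain ⟨g', k, hg, hB⟩ := exists_lie' (p := p) (Set.range R) ⟨1, hR1⟩ hmul (by
    rintro _ ⟨a, rfl⟩
    exact ⟨R a⁻¹, ⟨a⁻¹, rfl⟩, by rw [← hRm, mul_inv_cancel, hR1],
      by rw [← hRm, inv_mul_cancel, hR1]⟩) (isCompact_range hR)
  let g : LieSubalgebra ℚ_[p] (Module.End ℚ_[p] Q) :=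
    { g'.comap Φ.toLinearMap with
      lie_mem' := fun {x y} hx hy => by
        have h1 := hB _ hx _ hy
        have h2 : Φ ⁅x, y⁆ = Φ x * Φ y - Φ y * Φ x := by
          rw [LieRing.of_associative_ring_bracket, map_sub, map_mul, map_mul]
        show Φ ⁅x, y⁆ ∈ g'
        rw [h2]
        exact h1 }
  have hgm : ∀ x, x ∈ g ↔ Φ x ∈ g' := fun x => Iff.rfl
  refine ⟨g, ?_, ?_, ?_⟩
  · intro x hx
    obtain ⟨a, c, h1, h2, h3, h4⟩ := lie_limit hg ((hgm x).1 hx)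
    choose γ hγ using h1
    refine ⟨γ, c, h2, h3, fun Λ => ?_⟩
    have h5 : Continuous (Λ.comp Φ.symm.toLinearMap : EN p N →ₗ[ℚ_[p]] ℚ_[p]) :=
      LinearMap.continuous_of_finiteDimensional _
    have h6 := (h5.tendsto (Φ x)).comp h4
    have e1 : (Λ.comp Φ.symm.toLinearMap : EN p N →ₗ[ℚ_[p]] ℚ_[p]) (Φ x) = Λ x := by
      show Λ (Φ.symm (Φ x)) = Λ x
      rw [Φ.symm_apply_apply]
    rw [e1] at h6
    refine h6.congr fun m => ?_
    show Λ (Φ.symm ((c m)⁻¹ • (a m - 1))) = _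
    rw [← hγ m, map_smul, map_sub, map_one]
    show Λ ((c m)⁻¹ • (Φ.symm (Φ (r (γ m))) - 1)) = _
    rw [Φ.symm_apply_apply]
  · intro γ x hx
    rw [hgm, map_mul, map_mul]
    exact lie_conj hg hmul (u := R γ) (v := R γ⁻¹) ⟨γ, rfl⟩ ⟨γ⁻¹, rfl⟩
      (by rw [← hRm, mul_inv_cancel, hR1]) (by rw [← hRm, inv_mul_cancel, hR1]) ((hgm x).1 hx)
  · intro P hP
    have hP' : ∀ y ∈ g', Φ P * y = y * Φ P := by
      intro y hy
      have h1 : Φ.symm y ∈ g := by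
        rw [hgm, Φ.apply_symm_apply]; exact hy
      have h2 := congrArg Φ (hP _ h1)
      rwa [map_mul, map_mul, Φ.apply_symm_apply] at h2
    let C : Subgroup Γ :=
      { carrier := {γ | P * r γ = r γ * P}
        one_mem' := by
          show P * r 1 = r 1 * P
          rw [map_one, mul_one, one_mul]
        mul_mem' := fun {a b} ha hb => by
          have ha' : P * r a = r a * P := ha
          have hb' : P * r b = r b * P := hb
          show P * r (a * b) = r (a * b) * P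
          rw [map_mul, ← mul_assoc, ha', mul_assoc, hb', mul_assoc]
        inv_mem' := fun {a} ha => by
          have ha' : P * r a = r a * P := ha
          show P * r a⁻¹ = r a⁻¹ * P
          have h1 : r a⁻¹ * r a = 1 := by rw [← map_mul, inv_mul_cancel, map_one]
          have h2 : r a * r a⁻¹ = 1 := by rw [← map_mul, mul_inv_cancel, map_one]
          calc P * r a⁻¹ = (r a⁻¹ * r a) * P * r a⁻¹ := by rw [h1, one_mul]
            _ = r a⁻¹ * (P * r a) * r a⁻¹ := by rw [ha', mul_assoc (r a⁻¹)]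
            _ = r a⁻¹ * P := by rw [mul_assoc, mul_assoc, h2, mul_one] }
    have hC : IsOpen (C : Set Γ) := by
      refine C.isOpen_of_mem_nhds (g := 1) ?_
      have h1 : R ⁻¹' Metric.closedBall 1 (((p : ℝ)⁻¹) ^ k) ∈ 𝓝 (1 : Γ) := by
        refine hR.continuousAt.preimage_mem_nhds ?_
        rw [hR1]
        exact Metric.closedBall_mem_nhds _ (pow_pos pinv_pos k)
      refine mem_of_superset h1 fun γ hγ => ?_
      have h2 : ‖R γ - 1‖ ≤ ((p : ℝ)⁻¹) ^ k := by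
        rw [← dist_eq_norm]; exact hγ
      have h3 := lie_comm hg hP' ⟨γ, rfl⟩ h2
      have h4 : Φ (P * r γ) = Φ (r γ * P) := by rw [map_mul, map_mul]; exact h3
      exact Φ.injective h4
    have := Subgroup.quotient_finite_of_isOpen C hC
    exact ⟨C, Subgroup.finiteIndex_of_finite_quotient, fun γ hγ => hγ⟩

end rep

end Pool.Agent.W5h2.SL
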