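import Mathlib
import Pool.Agent.W5h2.SL.ActA

/-!
# Subquotients
-/

set_option autoImplicit false
set_option linter.unusedSectionVars false

open Module LieAlgebra LieModule

namespace Pool.Agent.W5h2.SL

attribute [local instance 100] LieRing.ofAssociativeRing

section quo

variable {K : Type} [Field K] {M : Type} [AddCommGroup M] [Module K M] (F G : Submodule K M)

/-- the subquotient -/
abbrev SQ : Type := ↥G ⧸ F.comap G.subtype

variable {F G}

/-- the class of a vector -/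
def mkq (u : M) (hu : u ∈ G) : SQ F G := Submodule.Quotient.mk ⟨u, hu⟩

theorem mkq_congr {u v : M} (hu : u ∈ G) (hv : v ∈ G) (h : u = v) :
    (mkq u hu : SQ F G) = mkq v hv := by
  subst h; rfl

theorem mkq_add {u v : M} (hu : u ∈ G) (hv : v ∈ G) :
    (mkq u hu : SQ F G) + mkq v hv = mkq (u + v) (G.add_mem hu hv) := rfl

theorem mkq_sub {u v : M} (hu : u ∈ G) (hv : v ∈ G) :
    (mkq u hu : SQ F G) - mkq v hv = mkq (u - v) (G.sub_mem hu hv) := rfl

theorem mkq_smul {u : M} (c : K) (hu : u ∈ G) :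
    c • (mkq u hu : SQ F G) = mkq (c • u) (G.smul_mem c hu) := rfl

theorem mkq_surj (q : SQ F G) : ∃ u hu, mkq u hu = q := by
  obtain ⟨⟨u, hu⟩, rfl⟩ := Submodule.Quotient.mk_surjective _ q
  exact ⟨u, hu, rfl⟩

theorem mkq_zero {u : M} (hu : u ∈ G) : (mkq u hu : SQ F G) = 0 ↔ u ∈ F := by
  unfold mkq
  rw [Submodule.Quotient.mk_eq_zero]
  rfl

/-- the induced operator on the subquotient -/
noncomputable def sq (A : Module.End K M) (hG : ∀ u ∈ G, A u ∈ G) (hF : ∀ u ∈ F, A u ∈ F) :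
    Module.End K (SQ F G) :=
  Submodule.mapQ _ _ (A.restrict hG) (fun u hu => hF u.1 hu)

theorem sq_mk (A : Module.End K M) (hG : ∀ u ∈ G, A u ∈ G) (hF : ∀ u ∈ F, A u ∈ F) (u : M)
    (hu : u ∈ G) : sq A hG hF (mkq u hu) = mkq (A u) (hG u hu) := rfl

theorem sq_ext {A B : Module.End K (SQ F G)} (h : ∀ u (hu : u ∈ G),
    A (mkq u hu) = B (mkq u hu)) : A = B := by
  refine LinearMap.ext fun q => ?_
  obtain ⟨u, hu, rfl⟩ := mkq_surj q
  exact h u hu

theorem sq_pow (A : Module.End K M) (hG : ∀ u ∈ G, A u ∈ G) (hF : ∀ u ∈ F, A u ∈ F) (n : ℕ) :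
    ∃ (hG' : ∀ u ∈ G, (A ^ n) u ∈ G) (hF' : ∀ u ∈ F, (A ^ n) u ∈ F),
      sq A hG hF ^ n = sq (A ^ n) hG' hF' := by
  induction n with
  | zero =>
    refine ⟨fun u hu => hu, fun u hu => hu, sq_ext fun u hu => ?_⟩
    rfl
  | succ n ih =>
    obtain ⟨h1, h2, h3⟩ := ih
    refine ⟨fun u hu => ?_, fun u hu => ?_, sq_ext fun u hu => ?_⟩
    · rw [pow_succ', Module.End.mul_apply]; exact hG _ (h1 u hu)
    · rw [pow_succ', Module.End.mul_apply]; exact hF _ (h2 u hu)
    · rw [pow_succ', h3, Module.End.mul_apply, sq_mk, sq_mk, sq_mk]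
      exact mkq_congr _ _ (by rw [pow_succ', Module.End.mul_apply])

theorem sq_aeval (A : Module.End K M) (hG : ∀ u ∈ G, A u ∈ G) (hF : ∀ u ∈ F, A u ∈ F)
    (p : Polynomial K) (hp : Polynomial.aeval A p = 0) : Polynomial.aeval (sq A hG hF) p = 0 := by
  have h1 : ∀ p : Polynomial K, ∀ (u : M) (hu : u ∈ G), ∃ h : Polynomial.aeval A p u ∈ G,
      Polynomial.aeval (sq A hG hF) p (mkq u hu) = mkq (Polynomial.aeval A p u) h := by
    intro p
    induction p using Polynomial.induction_on' with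
    | add p q hp hq =>
      intro u hu
      obtain ⟨h1, h2⟩ := hp u hu
      obtain ⟨h3, h4⟩ := hq u hu
      refine ⟨?_, ?_⟩
      · rw [map_add]
        exact G.add_mem h1 h3
      · rw [map_add, LinearMap.add_apply, h2, h4, mkq_add]
        exact mkq_congr _ _ (by rw [map_add]; rfl)
    | monomial n a =>
      intro u hu
      obtain ⟨h1, h2, h3⟩ := sq_pow A hG hF n
      refine ⟨?_, ?_⟩
      · rw [Polynomial.aeval_monomial, ← Algebra.smul_def, LinearMap.smul_apply]
        exact G.smul_mem a (h1 u hu)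
      · rw [Polynomial.aeval_monomial, ← Algebra.smul_def, LinearMap.smul_apply, h3, sq_mk,
          mkq_smul]
        exact mkq_congr _ _ (by
          rw [Polynomial.aeval_monomial, ← Algebra.smul_def, LinearMap.smul_apply])
  refine sq_ext fun u hu => ?_
  obtain ⟨h, h2⟩ := h1 p u hu
  rw [h2, LinearMap.zero_apply, mkq_zero, hp]
  exact F.zero_mem

end quo

section act

variable {K : Type} [Field K] [CharZero K] {L : Type} [LieRing L] [LieAlgebra K L]
  [FiniteDimensional K L] {M : Type} [AddCommGroup M] [Module K M] [FiniteDimensional K M]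
  {Γ : Type} [Group Γ] {r : Γ →* Module.End K M} {t : L →ₗ⁅K⁆ Module.End K M}
  {θ : Γ → L ≃ₗ⁅K⁆ L}

/-- the action of the group on a subquotient -/
noncomputable def rq (r : Γ →* Module.End K M) {F G : Submodule K M} (hF : Stab r F)
    (hG : Stab r G) : Γ →* Module.End K (SQ F G) where
  toFun := fun γ => sq (r γ) (hG γ) (hF γ)
  map_one' := sq_ext fun u hu => by
    rw [sq_mk]
    exact mkq_congr _ _ (by rw [map_one]; rfl)
  map_mul' := fun a b => sq_ext fun u hu => by
    rw [Module.End.mul_apply, sq_mk, sq_mk, sq_mk]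
    exact mkq_congr _ _ (by rw [map_mul]; rfl)

/-- the action of the Lie algebra on a subquotient -/
noncomputable def tq (t : L →ₗ⁅K⁆ Module.End K M) {F G : Submodule K M}
    (hF : ∀ x, ∀ u ∈ F, t x u ∈ F) (hG : ∀ x, ∀ u ∈ G, t x u ∈ G) :
    L →ₗ⁅K⁆ Module.End K (SQ F G) where
  toFun := fun y => sq (t y) (hG y) (hF y)
  map_add' := fun a b => sq_ext fun u hu => by
    rw [LinearMap.add_apply, sq_mk, sq_mk, sq_mk, mkq_add]
    exact mkq_congr _ _ (by rw [map_add]; rfl)
  map_smul' := fun c b => sq_ext fun u hu => by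
    rw [RingHom.id_apply, LinearMap.smul_apply, sq_mk, sq_mk, mkq_smul]
    exact mkq_congr _ _ (by rw [map_smul]; rfl)
  map_lie' := fun {a b} => sq_ext fun u hu => by
    rw [LieRing.of_associative_ring_bracket, LinearMap.sub_apply, Module.End.mul_apply,
      Module.End.mul_apply, sq_mk, sq_mk, sq_mk, sq_mk, sq_mk, mkq_sub]
    exact mkq_congr _ _ (by rw [LieHom.map_lie]; rfl)

theorem act_quo (h : Act r t θ) {F G : Submodule K M} (hF : Stab r F) (hG : Stab r G) :
    Act (rq r hF hG) (tq t (h.st F hF) (h.st G hG)) θ := by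
  refine ⟨fun γ y => sq_ext fun u hu => ?_, fun U hU y q hq => ?_⟩
  · rw [Module.End.mul_apply, Module.End.mul_apply]
    exact mkq_congr _ _ (LinearMap.congr_fun (h.comm γ y) u)
  · obtain ⟨u, hu, rfl⟩ := mkq_surj q
    -- the preimage of the subspace
    let pre : Submodule K M := (U.comap (F.comap G.subtype).mkQ).map G.subtype
    have hpre : ∀ u, u ∈ pre ↔ ∃ hu : u ∈ G, mkq u hu ∈ U := by
      intro u
      constructor
      · rintro ⟨⟨u, hu⟩, h1, rfl⟩
        exact ⟨hu, h1⟩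
      · rintro ⟨hu, h1⟩
        exact ⟨⟨u, hu⟩, h1, rfl⟩
    have hpreS : Stab r pre := by
      intro γ u hu
      obtain ⟨hu1, hu2⟩ := (hpre u).1 hu
      exact (hpre _).2 ⟨hG γ u hu1, hU γ _ hu2⟩
    exact ((hpre _).1 (h.st pre hpreS y u ((hpre u).2 ⟨hu, hq⟩))).2

theorem semi_quo {F G : Submodule K M} (hF : Stab r F) (hG : Stab r G) (hFG : F ≤ G)
    (hs : SemiInt r F G) : Semi (rq r hF hG) := by
  let pre : Submodule K (SQ F G) → Submodule K M := fun U =>
    (U.comap (F.comap G.subtype).mkQ).map G.subtype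
  have hpre : ∀ U u, u ∈ pre U ↔ ∃ hu : u ∈ G, mkq u hu ∈ U := by
    intro U u
    constructor
    · rintro ⟨⟨u, hu⟩, h1, rfl⟩
      exact ⟨hu, h1⟩
    · rintro ⟨hu, h1⟩
      exact ⟨⟨u, hu⟩, h1, rfl⟩
  have hpreS : ∀ U, Stab (rq r hF hG) U → Stab r (pre U) := by
    intro U hU γ u hu
    obtain ⟨hu1, hu2⟩ := (hpre U u).1 hu
    exact (hpre U _).2 ⟨hG γ u hu1, hU γ _ hu2⟩
  intro U hU
  obtain ⟨U', hU'1, hU'2, hU'3, hU'4, hU'5⟩ := hs (pre U) (hpreS U hU) (fun u hu =>
    (hpre U u).2 ⟨hFG hu, by rw [(mkq_zero (hFG hu)).2 hu]; exact U.zero_mem⟩)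
    (fun u hu => ((hpre U u).1 hu).1)
  let V : Submodule K (SQ F G) := (U'.comap G.subtype).map (F.comap G.subtype).mkQ
  have hV : ∀ u (hu : u ∈ G), mkq u hu ∈ V ↔ u ∈ U' := by
    intro u hu
    constructor
    · rintro ⟨⟨v, hv⟩, h1, h2⟩
      have h3 : (mkq (v - u) (G.sub_mem hv hu) : SQ F G) = 0 := by
        rw [← mkq_sub hv hu, sub_eq_zero]
        exact h2
      have h4 : v - u ∈ U' := hU'2 ((mkq_zero _).1 h3)
      have h5 : v ∈ U' := h1
      have h6 := U'.sub_mem h5 h4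
      rwa [sub_sub_cancel] at h6
    · intro h1
      exact ⟨⟨u, hu⟩, h1, rfl⟩
  refine ⟨V, ?_, ?_⟩
  · intro γ q hq
    obtain ⟨u, hu, rfl⟩ := mkq_surj q
    exact (hV _ _).2 (hU'1 γ u ((hV _ _).1 hq))
  · refine isCompl_iff.2 ⟨?_, ?_⟩
    · rw [Submodule.disjoint_def]
      intro q hq1 hq2
      obtain ⟨u, hu, rfl⟩ := mkq_surj q
      have h1 : u ∈ pre U ⊓ U' := ⟨(hpre U u).2 ⟨hu, hq1⟩, (hV _ _).1 hq2⟩
      rw [hU'4] at h1
      exact (mkq_zero _).2 h1
    · rw [codisjoint_iff, Submodule.eq_top_iff']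
      intro q
      obtain ⟨u, hu, rfl⟩ := mkq_surj q
      have h1 := hu
      rw [← hU'5] at h1
      obtain ⟨a, ha, b, hb, rfl⟩ := Submodule.mem_sup.1 h1
      obtain ⟨ha1, ha2⟩ := (hpre U a).1 ha
      rw [show (mkq (a + b) hu : SQ F G) = mkq a ha1 + mkq b (hU'3 hb) from rfl]
      exact Submodule.add_mem_sup ha2 ((hV _ _).2 hb)

/-- The nilpotent part of an element of the radical kills semisimple subquotients. -/
theorem nil_kills (h : Act r t θ) {F G : Submodule K M} (hF : Stab r F) (hG : Stab r G)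
    (hFG : F ≤ G) (hs : SemiInt r F G) {x : L} (hx : x ∈ radical K L) {N S : Module.End K M}
    (hn : IsNilpotent N) (hS : S.IsSemisimple) (hc : N * S = S * N) (hX : t x = N + S) :
    ∀ u ∈ G, N u ∈ F := by
  obtain ⟨N0, S0, hN0, hS0, hn0, hss0, hX0⟩ := exists_jc (t x)
  have e : N0 = N := nil_unique hN0 hS0 hn0 hss0 hX0 hn hS hX hc
  have e' : S0 = S := by
    have h1 : N0 + S0 = N + S := by rw [← hX0, hX]
    rw [e] at h1
    exact add_left_cancel h1
  rw [e] at hN0
  rw [e'] at hS0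
  have hNG := stab_of_adjoin hN0 (h.st G hG x)
  have hNF := stab_of_adjoin hN0 (h.st F hF x)
  have hSG := stab_of_adjoin hS0 (h.st G hG x)
  have hSF := stab_of_adjoin hS0 (h.st F hF x)
  have hss := rad_semisimple (act_quo h hF hG) (semi_quo hF hG hFG hs) hx
  have e1 : tq t (h.st F hF) (h.st G hG) x = sq N hNG hNF + sq S hSG hSF :=
    sq_ext fun u hu => mkq_congr _ _ (LinearMap.congr_fun hX u)
  have hS' : (sq S hSG hSF : Module.End K (SQ F G)).IsSemisimple :=
    Module.End.isSemisimple_of_squarefree_aeval_eq_zero hS.minpoly_squarefree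
      (sq_aeval S hSG hSF _ (minpoly.aeval K S))
  have hc' : Commute (sq N hNG hNF : Module.End K (SQ F G)) (sq S hSG hSF) :=
    sq_ext fun u hu => mkq_congr _ _ (LinearMap.congr_fun hc u)
  have hN' : (sq N hNG hNF : Module.End K (SQ F G)).IsSemisimple := by
    have h1 : sq N hNG hNF = tq t (h.st F hF) (h.st G hG) x - sq S hSG hSF := by
      rw [e1, add_sub_cancel_right]
    rw [h1]
    refine Module.End.IsSemisimple.sub_of_commute ?_ hss hS'
    rw [e1]
    exact (hc').add_left (Commute.refl _)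
  have hn' : IsNilpotent (sq N hNG hNF : Module.End K (SQ F G)) := by
    obtain ⟨m, hm⟩ := hn
    obtain ⟨h1, h2, h3⟩ := sq_pow N hNG hNF m
    refine ⟨m, ?_⟩
    rw [h3]
    refine sq_ext fun u hu => ?_
    rw [sq_mk, LinearMap.zero_apply, mkq_zero, hm]
    exact F.zero_mem
  have h0 : (sq N hNG hNF : Module.End K (SQ F G)) = 0 :=
    Module.End.eq_zero_of_isNilpotent_isSemisimple hn' hN'
  intro u hu
  have h1 := LinearMap.congr_fun h0 (mkq u hu)
  rw [sq_mk, LinearMap.zero_apply, mkq_zero] at h1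
  exact h1

end act

end Pool.Agent.W5h2.SL
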