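import Mathlib
import Pool.Agent.W5h2.SL.Quo
import Pool.Agent.W5h2.SL.Padic

/-!
# Finite families of representations of a compact group
-/

set_option autoImplicit false
set_option linter.unusedSectionVars false

open Module Filter Topology

namespace Pool.Agent.W5h2.SL

attribute [local instance 100] LieRing.ofAssociativeRing

variable {p : ℕ} [Fact p.Prime] {Γ : Type} [Group Γ]

/-- compatible actions of a group and a Lie algebra on a family of spaces -/
structure Fam {ι L : Type} {X : ι → Type} [LieRing L] [LieAlgebra ℚ_[p] L]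
    [∀ i, AddCommGroup (X i)] [∀ i, Module ℚ_[p] (X i)]
    (r : ∀ i, Γ →* Module.End ℚ_[p] (X i)) (t : ∀ i, L →ₗ⁅ℚ_[p]⁆ Module.End ℚ_[p] (X i))
    (θ : Γ → L ≃ₗ⁅ℚ_[p]⁆ L) : Prop where
  act : ∀ i, Act (r i) (t i) θ
  bil : ∀ i j k (b : X i →ₗ[ℚ_[p]] X j →ₗ[ℚ_[p]] X k),
    (∀ γ v w, b (r i γ v) (r j γ w) = r k γ (b v w)) →
    ∀ x v w, t k x (b v w) = b (t i x v) w + b v (t j x w)
  com : ∀ i (P : Module.End ℚ_[p] (X i)), (∀ x, P * t i x = t i x * P) →
    ∃ C : Subgroup Γ, C.FiniteIndex ∧ ∀ γ ∈ C, P * r i γ = r i γ * P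
  lin : ∀ i j (f : X i →ₗ[ℚ_[p]] X j), (∀ γ v, f (r i γ v) = r j γ (f v)) →
    ∀ x v, f (t i x v) = t j x (f v)

variable [TopologicalSpace Γ] [IsTopologicalGroup Γ] [CompactSpace Γ]

theorem IsLieG.lim_zero {Q : Type} [AddCommGroup Q] [Module ℚ_[p] Q]
    {r : Γ →* Module.End ℚ_[p] Q} {g : LieSubalgebra ℚ_[p] (Module.End ℚ_[p] Q)}
    (h : IsLieG r g) (Λ : Module.Dual ℚ_[p] (Module.End ℚ_[p] Q)) (hΛ : ∀ γ, Λ (r γ - 1) = 0)
    {x : Module.End ℚ_[p] Q} (hx : x ∈ g) : Λ x = 0 := by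
  obtain ⟨γ, c, h1, h2, h3⟩ := h.lim x hx
  refine tendsto_nhds_unique (h3 Λ) ?_
  refine tendsto_const_nhds.congr fun m => ?_
  rw [map_smul, hΛ, smul_zero]

section pi

variable {ι : Type} [Fintype ι] [DecidableEq ι] {X : ι → Type} [∀ i, AddCommGroup (X i)]
  [∀ i, Module ℚ_[p] (X i)]

/-- the sum of a family of representations -/
noncomputable def rP (r : ∀ i, Γ →* Module.End ℚ_[p] (X i)) :
    Γ →* Module.End ℚ_[p] (∀ i, X i) where
  toFun := fun γ => LinearMap.pi fun i => (r i γ).comp (LinearMap.proj i)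
  map_one' := by
    refine LinearMap.ext fun v => funext fun i => ?_
    show r i 1 (v i) = v i
    rw [map_one]; rfl
  map_mul' := fun a b => by
    refine LinearMap.ext fun v => funext fun i => ?_
    show r i (a * b) (v i) = r i a (r i b (v i))
    rw [map_mul]; rfl

theorem rP_apply (r : ∀ i, Γ →* Module.End ℚ_[p] (X i)) (γ : Γ) (v : ∀ i, X i) (i : ι) :
    rP r γ v i = r i γ (v i) := rfl

/-- the diagonal block -/
noncomputable def blk (i : ι) :
    Module.End ℚ_[p] (∀ i, X i) →ₗ[ℚ_[p]] Module.End ℚ_[p] (X i) where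
  toFun := fun x => (LinearMap.proj i).comp (x.comp (LinearMap.single ℚ_[p] X i))
  map_add' := fun _ _ => rfl
  map_smul' := fun _ _ => rfl

theorem blk_apply (i : ι) (x : Module.End ℚ_[p] (∀ i, X i)) (u : X i) :
    blk i x u = x (Pi.single i u) i := rfl

theorem blk_rP (r : ∀ i, Γ →* Module.End ℚ_[p] (X i)) (γ : Γ) (i : ι) :
    blk i (rP r γ) = r i γ := by
  refine LinearMap.ext fun u => ?_
  rw [blk_apply, rP_apply, Pi.single_eq_same]

theorem blk_one (i : ι) : blk i (1 : Module.End ℚ_[p] (∀ i, X i)) = 1 := by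
  refine LinearMap.ext fun u => ?_
  rw [blk_apply]
  exact Pi.single_eq_same i u

variable {r : ∀ i, Γ →* Module.End ℚ_[p] (X i)}
  {g : LieSubalgebra ℚ_[p] (Module.End ℚ_[p] (∀ i, X i))}

theorem blk_proj (h : IsLieG (rP r) g) {x : Module.End ℚ_[p] (∀ i, X i)} (hx : x ∈ g)
    (v : ∀ i, X i) (i : ι) : x v i = blk i x (v i) := by
  rw [← sub_eq_zero, ← forall_dual_apply_eq_zero_iff ℚ_[p]]
  intro φ
  let Λ : Module.Dual ℚ_[p] (Module.End ℚ_[p] (∀ i, X i)) :=
    φ.comp ((LinearMap.proj i).comp (LinearMap.applyₗ v)) -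
      (φ.comp (LinearMap.applyₗ (v i))).comp (blk i)
  have hΛ : ∀ A, Λ A = φ (A v i) - φ (blk i A (v i)) := fun A => rfl
  rw [map_sub, ← hΛ]
  refine h.lim_zero Λ (fun γ => ?_) hx
  have e1 : blk i (rP r γ - 1) (v i) = r i γ (v i) - v i := by
    rw [map_sub, blk_rP, blk_one]; rfl
  have e2 : (rP r γ - 1 : Module.End ℚ_[p] (∀ i, X i)) v i = r i γ (v i) - v i := rfl
  rw [hΛ, e1, e2, sub_self]

theorem single_blk (h : IsLieG (rP r) g) {x : Module.End ℚ_[p] (∀ i, X i)} (hx : x ∈ g)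
    (i : ι) (u : X i) : x (Pi.single i u) = Pi.single i (blk i x u) := by
  funext j
  rw [blk_proj h hx]
  by_cases hj : j = i
  · subst hj
    rw [Pi.single_eq_same, Pi.single_eq_same]
  · rw [Pi.single_eq_of_ne hj, Pi.single_eq_of_ne hj, map_zero]

/-- the action of the Lie algebra on a summand -/
noncomputable def tP (h : IsLieG (rP r) g) (i : ι) : g →ₗ⁅ℚ_[p]⁆ Module.End ℚ_[p] (X i) where
  toFun := fun x => blk i x.1
  map_add' := fun _ _ => rfl
  map_smul' := fun _ _ => rfl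
  map_lie' := fun {x y} => by
    refine LinearMap.ext fun u => ?_
    show blk i (⁅x.1, y.1⁆) u = ⁅blk i x.1, blk i y.1⁆ u
    rw [LieRing.of_associative_ring_bracket, LieRing.of_associative_ring_bracket, map_sub,
      LinearMap.sub_apply, LinearMap.sub_apply]
    have e : ∀ a ∈ g, ∀ b ∈ g, blk i (a * b) u = (blk i a * blk i b) u := by
      intro a ha b hb
      show a (b (Pi.single i u)) i = blk i a (blk i b u)
      rw [blk_proj h ha]
      rfl
    rw [e _ x.2 _ y.2, e _ y.2 _ x.2]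

theorem tP_apply (h : IsLieG (rP r) g) (i : ι) (x : g) : tP h i x = blk i x.1 := rfl

/-- the conjugation action on the Lie algebra -/
noncomputable def θP (h : IsLieG (rP r) g) (γ : Γ) : g ≃ₗ⁅ℚ_[p]⁆ g :=
  have h1 : ∀ γ : Γ, rP r γ * rP r γ⁻¹ = 1 := fun γ => by
    rw [← map_mul, mul_inv_cancel, map_one]
  have h2 : ∀ γ : Γ, rP r γ⁻¹ * rP r γ = 1 := fun γ => by
    rw [← map_mul, inv_mul_cancel, map_one]
  { toFun := fun x => ⟨rP r γ * x.1 * rP r γ⁻¹, h.conj γ x.1 x.2⟩
    map_add' := fun x y => Subtype.ext (by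
      show rP r γ * (x.1 + y.1) * rP r γ⁻¹ = rP r γ * x.1 * rP r γ⁻¹ + rP r γ * y.1 * rP r γ⁻¹
      rw [mul_add, add_mul])
    map_smul' := fun c x => Subtype.ext (by
      show rP r γ * (c • x.1) * rP r γ⁻¹ = c • (rP r γ * x.1 * rP r γ⁻¹)
      rw [mul_smul_comm, smul_mul_assoc])
    map_lie' := fun {x y} => Subtype.ext (by
      show rP r γ * (x.1 * y.1 - y.1 * x.1) * rP r γ⁻¹ =
        (rP r γ * x.1 * rP r γ⁻¹) * (rP r γ * y.1 * rP r γ⁻¹) -
        (rP r γ * y.1 * rP r γ⁻¹) * (rP r γ * x.1 * rP r γ⁻¹)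
      have e : ∀ a b : Module.End ℚ_[p] (∀ i, X i),
          (rP r γ * a * rP r γ⁻¹) * (rP r γ * b * rP r γ⁻¹) = rP r γ * (a * b) * rP r γ⁻¹ := by
        intro a b
        calc (rP r γ * a * rP r γ⁻¹) * (rP r γ * b * rP r γ⁻¹)
            = rP r γ * a * (rP r γ⁻¹ * rP r γ) * b * rP r γ⁻¹ := by simp only [mul_assoc]
          _ = _ := by rw [h2, mul_one]; simp only [mul_assoc]
      rw [e, e, mul_sub, sub_mul])
    invFun := fun x => ⟨rP r γ⁻¹ * x.1 * rP r γ, by
      have := h.conj γ⁻¹ x.1 x.2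
      rwa [inv_inv] at this⟩
    left_inv := fun x => Subtype.ext (by
      show rP r γ⁻¹ * (rP r γ * x.1 * rP r γ⁻¹) * rP r γ = x.1
      calc rP r γ⁻¹ * (rP r γ * x.1 * rP r γ⁻¹) * rP r γ
          = (rP r γ⁻¹ * rP r γ) * x.1 * (rP r γ⁻¹ * rP r γ) := by simp only [mul_assoc]
        _ = _ := by rw [h2, mul_one, one_mul])
    right_inv := fun x => Subtype.ext (by
      show rP r γ * (rP r γ⁻¹ * x.1 * rP r γ) * rP r γ⁻¹ = x.1
      calc rP r γ * (rP r γ⁻¹ * x.1 * rP r γ) * rP r γ⁻¹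
          = (rP r γ * rP r γ⁻¹) * x.1 * (rP r γ * rP r γ⁻¹) := by simp only [mul_assoc]
        _ = _ := by rw [h1, mul_one, one_mul]) }

theorem θP_coe (h : IsLieG (rP r) g) (γ : Γ) (x : g) :
    (θP h γ x).1 = rP r γ * x.1 * rP r γ⁻¹ := rfl

variable [∀ i, FiniteDimensional ℚ_[p] (X i)]

theorem fam_of_lieG (h : IsLieG (rP r) g) : Fam r (tP h) (θP h) := by
  refine ⟨fun i => ⟨fun γ x => ?_, fun U hU x u hu => ?_⟩, ?_, ?_, ?_⟩
  · refine LinearMap.ext fun u => ?_
    show r i γ (blk i x.1 u) = blk i (rP r γ * x.1 * rP r γ⁻¹) (r i γ u)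
    rw [blk_apply i (rP r γ * x.1 * rP r γ⁻¹), Module.End.mul_apply, Module.End.mul_apply,
      rP_apply, blk_proj h x.2, rP_apply, Pi.single_eq_same]
    congr 2
    rw [← Module.End.mul_apply, ← map_mul, inv_mul_cancel, map_one]
    rfl
  · by_contra hne
    obtain ⟨f, hf1, hf2⟩ := Submodule.exists_le_ker_of_notMem hne
    apply hf1
    let Λ : Module.Dual ℚ_[p] (Module.End ℚ_[p] (∀ i, X i)) :=
      (f.comp (LinearMap.applyₗ u)).comp (blk i)
    refine h.lim_zero Λ (fun γ => ?_) x.2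
    show f (blk i (rP r γ - 1) u) = 0
    rw [map_sub, blk_rP, blk_one, LinearMap.sub_apply]
    exact hf2 (U.sub_mem (hU γ u hu) hu)
  · intro i j k b hb x v w
    rw [tP_apply, tP_apply, tP_apply, ← sub_eq_zero, ← forall_dual_apply_eq_zero_iff ℚ_[p]]
    intro φ
    rw [map_sub, map_add, sub_eq_zero]
    obtain ⟨γ, c, h1, h2, h3⟩ := h.lim x.1 x.2
    obtain ⟨A, hA⟩ : ∃ A : ℕ → Module.End ℚ_[p] (∀ i, X i),
      ∀ m, A m = (c m)⁻¹ • (rP r (γ m) - 1) := ⟨_, fun m => rfl⟩
    simp_rw [← hA] at h3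
    have hlim : ∀ (j : ι) (u : X j) (ψ : Module.Dual ℚ_[p] (X j)),
        Tendsto (fun m => ψ (blk j (A m) u)) atTop (𝓝 (ψ (blk j x.1 u))) := by
      intro j u ψ
      exact h3 ((ψ.comp (LinearMap.applyₗ u)).comp (blk j))
    have hAm : ∀ (j : ι) (u : X j) m, r j (γ m) u = u + c m • blk j (A m) u := by
      intro j u m
      rw [hA, map_smul, map_sub, blk_rP, blk_one, LinearMap.smul_apply, LinearMap.sub_apply,
        smul_smul, mul_inv_cancel₀ (h1 m), one_smul]
      exact (add_sub_cancel u _).symm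
    have key : ∀ m, φ (blk k (A m) (b v w)) = φ (b (blk i (A m) v) w) + φ (b v (blk j (A m) w)) +
        c m * φ (b (blk i (A m) v) (blk j (A m) w)) := by
      intro m
      have e1 := hAm k (b v w) m
      rw [← hb, hAm i v m, hAm j w m] at e1
      have e2 : c m • blk k (A m) (b v w) = c m • (b (blk i (A m) v) w + b v (blk j (A m) w) +
          c m • b (blk i (A m) v) (blk j (A m) w)) := by
        have e3 : b v w + c m • blk k (A m) (b v w) = b v w + c m • (b (blk i (A m) v) w +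
            b v (blk j (A m) w) + c m • b (blk i (A m) v) (blk j (A m) w)) := by
          rw [← e1]
          simp only [map_add, map_smul, LinearMap.add_apply, LinearMap.smul_apply, smul_add]
          abel
        exact add_left_cancel e3
      have e4 : blk k (A m) (b v w) = b (blk i (A m) v) w + b v (blk j (A m) w) +
          c m • b (blk i (A m) v) (blk j (A m) w) := smul_right_injective _ (h1 m) e2
      rw [e4, map_add, map_add, map_smul, smul_eq_mul]
    have hbil : Tendsto (fun m => φ (b (blk i (A m) v) (blk j (A m) w))) atTop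
        (𝓝 (φ (b (blk i x.1 v) (blk j x.1 w)))) := by
      let B := finBasis ℚ_[p] (X i)
      have e : ∀ (u : X i) (w' : X j), φ (b u w') = ∑ a, B.coord a u * φ (b (B a) w') := by
        intro u w'
        conv_lhs => rw [← B.sum_repr u]
        rw [map_sum, LinearMap.sum_apply, map_sum]
        refine Finset.sum_congr rfl fun a _ => ?_
        rw [map_smul, LinearMap.smul_apply, map_smul, smul_eq_mul, B.coord_apply]
      rw [e (blk i x.1 v) (blk j x.1 w)]
      refine Tendsto.congr (fun m => (e (blk i (A m) v) (blk j (A m) w)).symm) ?_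
      refine tendsto_finsetSum _ fun a _ => ?_
      exact (hlim i v (B.coord a)).mul (hlim j w (φ.comp (b (B a))))
    refine tendsto_nhds_unique (hlim k (b v w) φ) ?_
    simp_rw [key]
    have l1 := hlim i v (φ.comp (b.flip w))
    have l2 := hlim j w (φ.comp (b v))
    have l3 := h2.mul hbil
    rw [zero_mul] at l3
    have l4 := (l1.add l2).add l3
    rw [add_zero] at l4
    exact l4
  · intro i P hP
    let P' : Module.End ℚ_[p] (∀ i, X i) :=
      (LinearMap.single ℚ_[p] X i).comp (P.comp (LinearMap.proj i))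
    have hP' : ∀ v, P' v = Pi.single i (P (v i)) := fun v => rfl
    obtain ⟨C, hC1, hC2⟩ := h.comm P' (fun x hx => by
      refine LinearMap.ext fun v => ?_
      rw [Module.End.mul_apply, Module.End.mul_apply, hP', hP', single_blk h hx,
        blk_proj h hx]
      congr 1
      exact LinearMap.congr_fun (hP ⟨x, hx⟩) (v i))
    refine ⟨C, hC1, fun γ hγ => LinearMap.ext fun u => ?_⟩
    have h1 := congrFun (LinearMap.congr_fun (hC2 γ hγ) (Pi.single i u)) i
    rw [Module.End.mul_apply, Module.End.mul_apply, hP', hP', rP_apply, rP_apply,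
      Pi.single_eq_same, Pi.single_eq_same, Pi.single_eq_same] at h1
    exact h1
  · intro i j f hf x v
    rw [tP_apply, tP_apply, ← sub_eq_zero, ← forall_dual_apply_eq_zero_iff ℚ_[p]]
    intro φ
    let Λ : Module.Dual ℚ_[p] (Module.End ℚ_[p] (∀ i, X i)) :=
      ((φ.comp f).comp (LinearMap.applyₗ v)).comp (blk i) -
        (φ.comp (LinearMap.applyₗ (f v))).comp (blk j)
    have hΛ : ∀ A, Λ A = φ (f (blk i A v)) - φ (blk j A (f v)) := fun A => rfl
    rw [map_sub, ← hΛ]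
    refine h.lim_zero Λ (fun γ => ?_) x.2
    have e1 : blk i (rP r γ - 1) v = r i γ v - v := by
      rw [map_sub, blk_rP, blk_one]; rfl
    have e2 : blk j (rP r γ - 1) (f v) = r j γ (f v) - f v := by
      rw [map_sub, blk_rP, blk_one]; rfl
    rw [hΛ, e1, e2, map_sub, hf, sub_self]

theorem rP_cts (hr : ∀ i, Cts (p := p) (fun γ => r i γ)) : Cts (p := p) (fun γ => rP r γ) := by
  intro v φ
  have e : ∀ w : ∀ i, X i, φ w = ∑ i, (φ.comp (LinearMap.single ℚ_[p] X i)) (w i) := by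
    intro w
    conv_lhs => rw [← Finset.univ_sum_single w]
    rw [map_sum]
    rfl
  have e2 : (fun γ => φ (rP r γ v)) =
      fun γ => ∑ i, (φ.comp (LinearMap.single ℚ_[p] X i)) (r i γ (v i)) := by
    funext γ
    rw [e]
    rfl
  rw [e2]
  exact continuous_finsetSum _ fun i _ => hr i (v i) _

theorem exists_fam [Nontrivial (∀ i, X i)] (hr : ∀ i, Cts (p := p) (fun γ => r i γ)) :
    ∃ (g : LieSubalgebra ℚ_[p] (Module.End ℚ_[p] (∀ i, X i)))
      (t : ∀ i, g →ₗ⁅ℚ_[p]⁆ Module.End ℚ_[p] (X i)) (θ : Γ → g ≃ₗ⁅ℚ_[p]⁆ g), Fam r t θ := by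
  obtain ⟨g, hg⟩ := exists_lieG (rP r) (rP_cts hr)
  exact ⟨g, tP hg, θP hg, fam_of_lieG hg⟩

end pi

end Pool.Agent.W5h2.SL
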