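import Mathlib

/-!
# Survival probabilities of the lazy random walk
-/

set_option autoImplicit false
set_option linter.unusedSectionVars false

namespace Pool.Agent.W5h2.SL

/-- the probability that the lazy walk started at `j` stays positive for `n` steps -/
noncomputable def share (d : ℕ) : ℕ → ℕ → ℝ
  | 0, 0 => 0
  | 0, _ + 1 => 1
  | _ + 1, 0 => 0
  | n + 1, j + 1 => (((d : ℝ) - 2) * share d n (j + 1) + share d n j + share d n (j + 2)) / d

theorem share_zero (d n : ℕ) : share d n 0 = 0 := by
  cases n <;> simp [share]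

theorem share_succ (d n j : ℕ) : share d (n + 1) (j + 1) =
    (((d : ℝ) - 2) * share d n (j + 1) + share d n j + share d n (j + 2)) / d := by
  rw [share]

theorem share_start (d j : ℕ) : share d 0 (j + 1) = 1 := by
  rw [share]

variable {d : ℕ}

theorem share_nonneg (hd : 2 ≤ d) (n j : ℕ) : 0 ≤ share d n j := by
  have hd' : (2 : ℝ) ≤ d := by exact_mod_cast hd
  induction n generalizing j with
  | zero =>
    cases j with
    | zero => rw [share_zero]
    | succ j => rw [share_start]; norm_num
  | succ n ih =>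
    cases j with
    | zero => rw [share_zero]
    | succ j =>
      rw [share_succ]
      have h1 := mul_nonneg (sub_nonneg.2 hd') (ih (j + 1))
      have h2 := ih j
      have h3 := ih (j + 2)
      positivity

theorem share_le_one (hd : 2 ≤ d) (n j : ℕ) : share d n j ≤ 1 := by
  have hd' : (2 : ℝ) ≤ d := by exact_mod_cast hd
  induction n generalizing j with
  | zero =>
    cases j with
    | zero => rw [share_zero]; norm_num
    | succ j => rw [share_start]
  | succ n ih =>
    cases j with
    | zero => rw [share_zero]; norm_num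
    | succ j =>
      rw [share_succ, div_le_one (by linarith)]
      have h1 := mul_le_mul_of_nonneg_left (ih (j + 1)) (sub_nonneg.2 hd')
      have h2 := ih j
      have h3 := ih (j + 2)
      linarith

theorem share_anti (hd : 2 ≤ d) (n j : ℕ) : share d (n + 1) j ≤ share d n j := by
  have hd' : (2 : ℝ) ≤ d := by exact_mod_cast hd
  induction n generalizing j with
  | zero =>
    cases j with
    | zero => rw [share_zero, share_zero]
    | succ j => rw [share_start]; exact share_le_one hd _ _
  | succ n ih =>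
    cases j with
    | zero => rw [share_zero, share_zero]
    | succ j =>
      have e1 := share_succ d (n + 1) j
      have e2 := share_succ d n j
      have h1 := mul_le_mul_of_nonneg_left (ih (j + 1)) (sub_nonneg.2 hd')
      have h2 := ih j
      have h3 := ih (j + 2)
      have h4 : (((d : ℝ) - 2) * share d (n + 1) (j + 1) + share d (n + 1) j +
          share d (n + 1) (j + 2)) / d ≤
          (((d : ℝ) - 2) * share d n (j + 1) + share d n j + share d n (j + 2)) / d :=
        div_le_div_of_nonneg_right (by linarith) (by linarith)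
      rw [← e1, ← e2] at h4
      exact h4

theorem share_antitone (hd : 2 ≤ d) (j : ℕ) : Antitone fun n => share d n j :=
  antitone_nat_of_succ_le fun n => share_anti hd n j

theorem sum_bound (hd : 2 ≤ d) (R : ℕ) (hR : 1 ≤ R) (n j : ℕ) (hj : j ≤ R) :
    ∑ m ∈ Finset.range n, share d m j ≤ n * (j : ℝ) / R + d * j * (R - j) / 2 := by
  have hd' : (2 : ℝ) ≤ d := by exact_mod_cast hd
  have hR' : (1 : ℝ) ≤ R := by exact_mod_cast hR
  induction n generalizing j with
  | zero =>
    have hj' : (j : ℝ) ≤ R := by exact_mod_cast hj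
    have h1 : (0 : ℝ) ≤ R - j := sub_nonneg.2 hj'
    rw [Finset.sum_range_zero, Nat.cast_zero, zero_mul, zero_div, zero_add]
    positivity
  | succ n ih =>
    rcases Nat.eq_zero_or_pos j with h0 | h0
    · subst h0
      rw [Finset.sum_eq_zero (fun m _ => share_zero d m)]
      simp
    rcases Nat.eq_or_lt_of_le hj with h1 | h1
    · subst h1
      have h2 : ∑ m ∈ Finset.range (n + 1), share d m j ≤ ∑ m ∈ Finset.range (n + 1), 1 :=
        Finset.sum_le_sum fun m _ => share_le_one hd m j
      rw [Finset.sum_const, Finset.card_range, nsmul_eq_mul, mul_one] at h2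
      refine h2.trans (le_of_eq ?_)
      rw [sub_self, mul_zero, zero_div, add_zero]
      field_simp
    · obtain ⟨i, rfl⟩ := Nat.exists_eq_succ_of_ne_zero h0.ne'
      rw [Nat.succ_eq_add_one, Finset.sum_range_succ', share_start]
      simp_rw [share_succ]
      rw [← Finset.sum_div, Finset.sum_add_distrib, Finset.sum_add_distrib, ← Finset.mul_sum]
      have a1 := ih (i + 1) hj
      have a2 := ih i (by omega)
      have a3 := ih (i + 2) (by omega)
      have a4 := mul_le_mul_of_nonneg_left a1 (sub_nonneg.2 hd')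
      have a5 : (((d : ℝ) - 2) * ∑ m ∈ Finset.range n, share d m (i + 1) +
          ∑ m ∈ Finset.range n, share d m i + ∑ m ∈ Finset.range n, share d m (i + 2)) / d ≤
          (((d : ℝ) - 2) * (n * ((i + 1 : ℕ) : ℝ) / R + d * ((i + 1 : ℕ) : ℝ) *
            (R - ((i + 1 : ℕ) : ℝ)) / 2) + (n * (i : ℝ) / R + d * i * (R - i) / 2) +
            (n * ((i + 2 : ℕ) : ℝ) / R + d * ((i + 2 : ℕ) : ℝ) * (R - ((i + 2 : ℕ) : ℝ)) / 2)) /
            d := by
        refine div_le_div_of_nonneg_right ?_ (by linarith)
        linarith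
      have a6 : (((d : ℝ) - 2) * (n * ((i + 1 : ℕ) : ℝ) / R + d * ((i + 1 : ℕ) : ℝ) *
            (R - ((i + 1 : ℕ) : ℝ)) / 2) + (n * (i : ℝ) / R + d * i * (R - i) / 2) +
            (n * ((i + 2 : ℕ) : ℝ) / R + d * ((i + 2 : ℕ) : ℝ) * (R - ((i + 2 : ℕ) : ℝ)) / 2)) /
            d + 1 = n * ((i + 1 : ℕ) : ℝ) / R + d * ((i + 1 : ℕ) : ℝ) *
            (R - ((i + 1 : ℕ) : ℝ)) / 2 := by
        push_cast
        field_simp
        ring
      have a7 : (n : ℝ) * ((i + 1 : ℕ) : ℝ) / R ≤ ((n + 1 : ℕ) : ℝ) * ((i + 1 : ℕ) : ℝ) / R := by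
        refine div_le_div_of_nonneg_right ?_ (by linarith)
        refine mul_le_mul_of_nonneg_right ?_ (by positivity)
        push_cast
        linarith
      linarith

/-- the explicit bound -/
theorem share_le (hd : 2 ≤ d) (n : ℕ) : share d n 1 ≤ Real.sqrt (2 * d / (n + 1)) := by
  have hd' : (2 : ℝ) ≤ d := by exact_mod_cast hd
  set s : ℝ := Real.sqrt (2 * (n + 1) / d) with hs
  have hs0 : 0 < s := Real.sqrt_pos.2 (by positivity)
  have hs2 : s ^ 2 = 2 * (n + 1) / d := Real.sq_sqrt (by positivity)
  let R := ⌈s⌉₊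
  have hR1 : 1 ≤ R := Nat.one_le_iff_ne_zero.2 (Nat.ceil_pos.2 hs0).ne'
  have hR2 : s ≤ R := Nat.le_ceil s
  have hR3 : (R : ℝ) < s + 1 := Nat.ceil_lt_add_one hs0.le
  have h1 := sum_bound hd R hR1 (n + 1) 1 hR1
  have h2 : ((n : ℝ) + 1) * share d n 1 ≤ ∑ m ∈ Finset.range (n + 1), share d m 1 := by
    have h3 : ∑ m ∈ Finset.range (n + 1), share d n 1 ≤ ∑ m ∈ Finset.range (n + 1), share d m 1 :=
      Finset.sum_le_sum fun m hm => share_antitone hd 1
        (Nat.lt_succ_iff.1 (Finset.mem_range.1 hm))
    rw [Finset.sum_const, Finset.card_range, nsmul_eq_mul] at h3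
    push_cast at h3
    exact h3
  have hn : (0 : ℝ) < (n : ℝ) + 1 := by positivity
  have h4 : ((n : ℝ) + 1) * share d n 1 ≤ (n + 1) / s + d * s / 2 := by
    refine h2.trans (h1.trans ?_)
    push_cast
    rw [mul_one, mul_one]
    refine add_le_add ?_ ?_
    · exact div_le_div_of_nonneg_left hn.le hs0 hR2
    · refine div_le_div_of_nonneg_right ?_ (by norm_num)
      exact mul_le_mul_of_nonneg_left (by linarith) (by linarith)
  have h5 : share d n 1 ≤ 2 / s := by
    have h6 : ((n : ℝ) + 1) / s + d * s / 2 = ((n : ℝ) + 1) * (2 / s) := by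
      have h7 : (d : ℝ) * s ^ 2 = 2 * (n + 1) := by rw [hs2]; field_simp
      field_simp
      nlinarith
    rw [h6] at h4
    exact le_of_mul_le_mul_left h4 hn
  refine h5.trans (Real.le_sqrt_of_sq_le ?_)
  rw [div_pow, hs2]
  apply le_of_eq
  field_simp

end Pool.Agent.W5h2.SL
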