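import Mathlib

/-!
# Kernels of nilpotent operators on tensor products
-/

set_option autoImplicit false
set_option linter.unusedSectionVars false

open Module

namespace Pool.Agent.W5h2.SL

section

variable {K : Type} [Field K] {V W T : Type} [AddCommGroup V] [Module K V]
  [FiniteDimensional K V] [AddCommGroup W] [Module K W] [FiniteDimensional K W] [AddCommGroup T]
  [Module K T] [FiniteDimensional K T]

theorem rank_step (S : Submodule K T) (f : T →ₗ[K] W) (B : Submodule K W)
    (h : ∀ z ∈ S, f z ∈ B) : finrank K S ≤ finrank K ↥(S ⊓ LinearMap.ker f) + finrank K B := by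
  have h1 := LinearMap.finrank_range_add_finrank_ker (f.domRestrict S)
  have h2 : finrank K (LinearMap.range (f.domRestrict S)) ≤ finrank K B := by
    refine Submodule.finrank_mono ?_
    rintro _ ⟨z, rfl⟩
    exact h z.1 z.2
  have h3 : (LinearMap.ker (f.domRestrict S)).map S.subtype = S ⊓ LinearMap.ker f := by
    ext z
    constructor
    · rintro ⟨⟨z, hz⟩, h4, rfl⟩
      exact ⟨hz, h4⟩
    · rintro ⟨hz, h4⟩
      exact ⟨⟨z, hz⟩, h4, rfl⟩
  have h4 := Submodule.finrank_map_subtype_eq S (LinearMap.ker (f.domRestrict S))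
  rw [h3] at h4
  omega

/-- the subspace `F ⊗ W` -/
def AF (ev : Dual K V →ₗ[K] T →ₗ[K] W) (F : Submodule K V) : Submodule K T where
  carrier := {z | ∀ φ : Dual K V, (∀ f ∈ F, φ f = 0) → ev φ z = 0}
  add_mem' := fun {a b} ha hb φ hφ => by rw [map_add, ha φ hφ, hb φ hφ, add_zero]
  zero_mem' := fun φ _ => map_zero _
  smul_mem' := fun c a ha φ hφ => by rw [map_smul, ha φ hφ, smul_zero]

theorem exists_jordan_pair {N : Module.End K V} (hn : IsNilpotent N) (h0 : N ≠ 0) :
    ∃ v w : V, N v = w ∧ N w = 0 ∧ w ≠ 0 := by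
  classical
  have hex : ∃ m, N ^ m = 0 := hn
  let m := Nat.find hex
  have hm : N ^ m = 0 := Nat.find_spec hex
  have hm2 : 2 ≤ m := by
    by_contra h
    have h1 : m = 0 ∨ m = 1 := by omega
    rcases h1 with h1 | h1
    · rw [h1, pow_zero] at hm
      apply h0
      rw [← mul_one N, hm, mul_zero]
    · rw [h1, pow_one] at hm
      exact h0 hm
  have hm1 : N ^ (m - 1) ≠ 0 := Nat.find_min hex (by omega)
  obtain ⟨u, hu⟩ : ∃ u, (N ^ (m - 1)) u ≠ 0 := by
    by_contra h
    push Not at h
    exact hm1 (LinearMap.ext h)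
  refine ⟨(N ^ (m - 2)) u, (N ^ (m - 1)) u, ?_, ?_, hu⟩
  · rw [← Module.End.mul_apply, ← pow_succ']
    congr 2
    omega
  · rw [← Module.End.mul_apply, ← pow_succ', show m - 1 + 1 = m by omega, hm]
    rfl

theorem exists_next {N : Module.End K V} (hn : IsNilpotent N) {F : Submodule K V} (hF : F ≠ ⊤) :
    ∃ u, u ∉ F ∧ N u ∈ F := by
  classical
  obtain ⟨u, hu⟩ : ∃ u, u ∉ F := by
    by_contra h
    push Not at h
    exact hF (Submodule.eq_top_iff'.2 h)
  obtain ⟨m, hm⟩ := hn
  have hex : ∃ m, (N ^ m) u ∈ F := ⟨m, by rw [hm]; exact F.zero_mem⟩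
  have h1 : (N ^ (Nat.find hex)) u ∈ F := Nat.find_spec hex
  have h2 : Nat.find hex ≠ 0 := by
    intro h
    rw [h, pow_zero] at h1
    exact hu h1
  obtain ⟨k, hk⟩ := Nat.exists_eq_succ_of_ne_zero h2
  refine ⟨(N ^ k) u, Nat.find_min hex (by omega), ?_⟩
  rw [hk, Nat.succ_eq_add_one, pow_succ', Module.End.mul_apply] at h1
  exact h1

variable [CharZero K] {N : Module.End K V} {M : Module.End K T} {NW : Module.End K W}
  {ev : Dual K V →ₗ[K] T →ₗ[K] W}

theorem ker_bound (hM : ∀ φ z, ev φ (M z) = ev (φ.comp N) z + NW (ev φ z))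
    (hinj : ∀ z, (∀ φ, ev φ z = 0) → z = 0) (hn : IsNilpotent N) (h0 : N ≠ 0) (j : ℕ) :
    finrank K (LinearMap.ker (M ^ (j + 1))) + 2 * finrank K (LinearMap.ker (NW ^ (j + 1))) ≤
      finrank K V * finrank K (LinearMap.ker (NW ^ (j + 1))) +
        finrank K (LinearMap.ker (NW ^ j)) + finrank K (LinearMap.ker (NW ^ (j + 2))) := by
  obtain ⟨v, w, hv, hw, hw0⟩ := exists_jordan_pair hn h0
  have hli : LinearIndependent K ![w, v] := by
    rw [LinearIndependent.pair_iff]
    intro s t hst
    have h1 := congrArg N hst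
    rw [map_add, map_smul, map_smul, hw, hv, smul_zero, zero_add, map_zero] at h1
    have h2 : t = 0 := (smul_eq_zero.1 h1).resolve_right hw0
    rw [h2, zero_smul, add_zero] at hst
    exact ⟨(smul_eq_zero.1 hst).resolve_right hw0, h2⟩
  let E : Submodule K V := Submodule.span K (Set.range ![w, v])
  have hE2 : finrank K E = 2 := by
    rw [show E = Submodule.span K (Set.range ![w, v]) from rfl, finrank_span_eq_card hli]
    rfl
  have hwE : w ∈ E := Submodule.subset_span ⟨0, rfl⟩
  have hvE : v ∈ E := Submodule.subset_span ⟨1, rfl⟩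
  have hEle : ∀ F : Submodule K V, w ∈ F → v ∈ F → E ≤ F := by
    intro F h1 h2
    refine Submodule.span_le.2 ?_
    rintro _ ⟨i, rfl⟩
    fin_cases i
    · exact h1
    · exact h2
  have hNE : ∀ u ∈ E, N u ∈ E := by
    have h1 : E ≤ E.comap N := hEle _ (by rw [Submodule.mem_comap, hw]; exact E.zero_mem)
      (by rw [Submodule.mem_comap, hv]; exact hwE)
    exact h1
  -- stability of the subspaces
  have hAF : ∀ F : Submodule K V, (∀ u ∈ F, N u ∈ F) → ∀ z ∈ AF ev F, M z ∈ AF ev F := by
    intro F hF z hz φ hφ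
    rw [hM, hz (φ.comp N) (fun f hf => hφ _ (hF f hf)), hz φ hφ, map_zero, add_zero]
  have hAFp : ∀ F : Submodule K V, (∀ u ∈ F, N u ∈ F) → ∀ z ∈ AF ev F, ∀ i, (M ^ i) z ∈ AF ev F := by
    intro F hF z hz i
    induction i with
    | zero => exact hz
    | succ i ih => rw [pow_succ', Module.End.mul_apply]; exact hAF F hF _ ih
  -- the base case
  have hwv : w ∉ Submodule.span K {v} := by
    intro h1
    obtain ⟨c, hc⟩ := Submodule.mem_span_singleton.1 h1
    have h2 := congrArg N hc
    rw [map_smul, hv, hw] at h2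
    have h3 : c = 0 := (smul_eq_zero.1 h2).resolve_right hw0
    rw [h3, zero_smul] at hc
    exact hw0 hc.symm
  obtain ⟨f, hf1, hf2⟩ := Submodule.exists_le_ker_of_notMem hwv
  obtain ⟨φ0, hφw, hφv⟩ : ∃ φ0 : Dual K V, φ0 w = 1 ∧ φ0 v = 0 := by
    refine ⟨(f w)⁻¹ • f, ?_, ?_⟩
    · show (f w)⁻¹ • f w = 1
      rw [smul_eq_mul, inv_mul_cancel₀ hf1]
    · have h1 : f v = 0 := hf2 (Submodule.mem_span_singleton_self v)
      show (f w)⁻¹ • f v = 0
      rw [h1, smul_zero]
  let φ1 : Dual K V := φ0.comp N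
  have hb : ∀ z ∈ AF ev E, ∀ i, ev φ1 ((M ^ i) z) = (NW ^ i) (ev φ1 z) := by
    intro z hz i
    induction i with
    | zero => rfl
    | succ i ih =>
      rw [pow_succ', Module.End.mul_apply, hM, ih, pow_succ', Module.End.mul_apply]
      have h1 := hAFp E hNE z hz i (φ1.comp N) (by
        have h2 : E ≤ LinearMap.ker (φ1.comp N) := hEle _ (by
          show φ0 (N (N w)) = 0
          rw [hw, map_zero, map_zero]) (by
          show φ0 (N (N v)) = 0
          rw [hv, hw, map_zero])
        exact h2)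
      rw [h1, zero_add]
  have ha : ∀ z ∈ AF ev E, ∀ i, ev φ0 ((M ^ (i + 1)) z) = (NW ^ (i + 1)) (ev φ0 z) +
      ((i + 1 : ℕ) : K) • (NW ^ i) (ev φ1 z) := by
    intro z hz i
    induction i with
    | zero =>
      rw [zero_add, pow_one, pow_one, pow_zero, hM, Nat.cast_one, one_smul, add_comm]
      rfl
    | succ i ih =>
      rw [pow_succ' M, Module.End.mul_apply, hM, ih]
      have h1 := hb z hz (i + 1)
      have h2 : ev (φ0.comp N) ((M ^ (i + 1)) z) = (NW ^ (i + 1)) (ev φ1 z) := h1
      rw [h2, map_add, map_smul, ← Module.End.mul_apply, ← pow_succ', ← Module.End.mul_apply,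
        ← pow_succ', Nat.cast_succ (i + 1), add_smul, one_smul]
      abel
  have hbase : finrank K ↥(LinearMap.ker (M ^ (j + 1)) ⊓ AF ev E) ≤
      finrank K (LinearMap.ker (NW ^ j)) + finrank K (LinearMap.ker (NW ^ (j + 2))) := by
    have hj : (((j + 1 : ℕ) : K)) ≠ 0 := by exact_mod_cast Nat.succ_ne_zero j
    have r1 := rank_step (LinearMap.ker (M ^ (j + 1)) ⊓ AF ev E) (ev φ0)
      (LinearMap.ker (NW ^ (j + 2))) (by
      rintro z ⟨hz1, hz2⟩
      have hz1' : (M ^ (j + 1)) z = 0 := hz1
      have h1 := ha z hz2 j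
      have h2 := hb z hz2 (j + 1)
      rw [hz1', map_zero] at h1 h2
      have h3 : (NW ^ (j + 1)) (ev φ0 z) = -(((j + 1 : ℕ) : K) • (NW ^ j) (ev φ1 z)) :=
        eq_neg_of_add_eq_zero_left h1.symm
      show (NW ^ (j + 2)) (ev φ0 z) = 0
      rw [show j + 2 = (j + 1) + 1 from rfl, pow_succ', Module.End.mul_apply, h3, map_neg,
        map_smul, ← Module.End.mul_apply, ← pow_succ', ← h2, smul_zero, neg_zero])
    have r2 := rank_step (LinearMap.ker (M ^ (j + 1)) ⊓ AF ev E ⊓ LinearMap.ker (ev φ0)) (ev φ1)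
      (LinearMap.ker (NW ^ j)) (by
      rintro z ⟨⟨hz1, hz2⟩, hz3⟩
      have hz1' : (M ^ (j + 1)) z = 0 := hz1
      have hz3' : ev φ0 z = 0 := hz3
      have h1 := ha z hz2 j
      rw [hz1', map_zero, hz3', map_zero, zero_add] at h1
      exact (smul_eq_zero.1 h1.symm).resolve_left hj)
    have r3 : (LinearMap.ker (M ^ (j + 1)) ⊓ AF ev E ⊓ LinearMap.ker (ev φ0) ⊓
        LinearMap.ker (ev φ1) : Submodule K T) = ⊥ := by
      rw [eq_bot_iff]
      rintro z ⟨⟨⟨-, hz2⟩, hz3⟩, hz4⟩
      have hz3' : ev φ0 z = 0 := hz3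
      have hz4' : ev φ1 z = 0 := hz4
      refine hinj z fun φ => ?_
      have h1 := hz2 (φ - φ w • φ0 - φ v • φ1) (by
        have h2 : E ≤ LinearMap.ker (φ - φ w • φ0 - φ v • φ1) := hEle _ (by
          show φ w - φ w * φ0 w - φ v * φ0 (N w) = 0
          rw [hφw, hw, map_zero]; ring) (by
          show φ v - φ w * φ0 v - φ v * φ0 (N v) = 0
          rw [hφv, hv, hφw]; ring)
        exact h2)
      rw [map_sub, map_sub, map_smul, map_smul, LinearMap.sub_apply, LinearMap.sub_apply,
        LinearMap.smul_apply, LinearMap.smul_apply, hz3', hz4', smul_zero, smul_zero, sub_zero,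
        sub_zero] at h1
      exact h1
    rw [r3, finrank_bot] at r2
    omega
  -- the induction
  set kj := finrank K (LinearMap.ker (NW ^ (j + 1))) with hkj
  set c := finrank K (LinearMap.ker (NW ^ j)) + finrank K (LinearMap.ker (NW ^ (j + 2))) with hc
  have hind : ∀ (n : ℕ) (F : Submodule K V), finrank K V - finrank K F = n → E ≤ F →
      (∀ u ∈ F, N u ∈ F) →
      finrank K ↥(LinearMap.ker (M ^ (j + 1)) ⊓ AF ev F) + 2 * kj ≤ finrank K F * kj + c →
      finrank K (LinearMap.ker (M ^ (j + 1))) + 2 * kj ≤ finrank K V * kj + c := by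
    intro n
    induction n using Nat.strong_induction_on with
    | _ n ih =>
    intro F hFn hEF hNF hP
    by_cases hF : F = ⊤
    · have h1 : AF ev F = ⊤ := by
        rw [Submodule.eq_top_iff']
        intro z φ hφ
        have h2 : φ = 0 := LinearMap.ext fun u => hφ u (by rw [hF]; trivial)
        rw [h2, map_zero, LinearMap.zero_apply]
      rw [h1, inf_top_eq, hF, finrank_top] at hP
      exact hP
    · obtain ⟨u, hu1, hu2⟩ := exists_next hn hF
      let F' := F ⊔ Submodule.span K {u}
      have huF' : u ∈ F' := Submodule.mem_sup_right (Submodule.mem_span_singleton_self u)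
      have hFF' : F < F' := lt_of_le_of_ne le_sup_left (fun h => hu1 (h ▸ huF'))
      have h1 : finrank K F < finrank K F' := Submodule.finrank_lt_finrank_of_lt hFF'
      have h2 : finrank K F' ≤ finrank K V := Submodule.finrank_le _
      have hNF' : ∀ x ∈ F', N x ∈ F := by
        intro x hx
        obtain ⟨a, ha, b, hb, rfl⟩ := Submodule.mem_sup.1 hx
        obtain ⟨s, rfl⟩ := Submodule.mem_span_singleton.1 hb
        rw [map_add, map_smul]
        exact F.add_mem (hNF a ha) (F.smul_mem s hu2)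
      refine ih (finrank K V - finrank K F') (by omega) F' rfl (hEF.trans hFF'.le)
        (fun x hx => hFF'.le (hNF' x hx)) ?_
      obtain ⟨f, hf1, hf2⟩ := Submodule.exists_le_ker_of_notMem hu1
      have hfF : ∀ x ∈ F, f x = 0 := fun x hx => hf2 hx
      have hpow : ∀ z ∈ AF ev F', ∀ i, ev f ((M ^ i) z) = (NW ^ i) (ev f z) := by
        intro z hz i
        induction i with
        | zero => rfl
        | succ i ih2 =>
          rw [pow_succ', Module.End.mul_apply, hM, ih2, pow_succ', Module.End.mul_apply]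
          have h1 := hAFp F' (fun x hx => hFF'.le (hNF' x hx)) z hz i (f.comp N)
            (fun x hx => hfF _ (hNF' x hx))
          rw [h1, zero_add]
      have r1 := rank_step (LinearMap.ker (M ^ (j + 1)) ⊓ AF ev F') (ev f)
        (LinearMap.ker (NW ^ (j + 1))) (by
        rintro z ⟨hz1, hz2⟩
        have hz1' : (M ^ (j + 1)) z = 0 := hz1
        show (NW ^ (j + 1)) (ev f z) = 0
        rw [← hpow z hz2, hz1', map_zero])
      have r2 : (LinearMap.ker (M ^ (j + 1)) ⊓ AF ev F' ⊓ LinearMap.ker (ev f) : Submodule K T) ≤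
          LinearMap.ker (M ^ (j + 1)) ⊓ AF ev F := by
        rintro z ⟨⟨hz1, hz2⟩, hz3⟩
        have hz3' : ev f z = 0 := hz3
        refine ⟨hz1, fun φ hφ => ?_⟩
        have h1 := hz2 (φ - (φ u * (f u)⁻¹) • f) (by
          intro x hx
          obtain ⟨a, ha, b, hb, rfl⟩ := Submodule.mem_sup.1 hx
          obtain ⟨s, rfl⟩ := Submodule.mem_span_singleton.1 hb
          show φ (a + s • u) - (φ u * (f u)⁻¹) * f (a + s • u) = 0
          rw [map_add, map_add, hφ a ha, hfF a ha, map_smul, map_smul, smul_eq_mul, smul_eq_mul]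
          field_simp
          ring)
        rw [map_sub, map_smul, LinearMap.sub_apply, LinearMap.smul_apply, hz3', smul_zero,
          sub_zero] at h1
        exact h1
      have r3 := Submodule.finrank_mono r2
      have h3 : (finrank K F + 1) * kj ≤ finrank K F' * kj := Nat.mul_le_mul_right _ h1
      have h4 : (finrank K F + 1) * kj = finrank K F * kj + kj := by ring
      omega
  have := hind _ E rfl le_rfl hNE (by rw [hE2]; omega)
  omega

end

end Pool.Agent.W5h2.SL
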