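import Mathlib
import Pool.Agent.W5h2.SL.Ker

/-!
# Operators on tensor products
-/

set_option autoImplicit false
set_option linter.unusedSectionVars false

open Module TensorProduct

namespace Pool.Agent.W5h2.SL

section

variable {K : Type} [Field K] {V W T : Type} [AddCommGroup V] [Module K V]
  [FiniteDimensional K V] [AddCommGroup W] [Module K W] [FiniteDimensional K W] [AddCommGroup T]
  [Module K T] [FiniteDimensional K T] (b : V ⊗[K] W ≃ₗ[K] T)

/-- the operator `A ⊗ 1 + 1 ⊗ B` -/
noncomputable def tD (A : Module.End K V) (B : Module.End K W) : Module.End K T :=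
  b.conjAlgEquiv K (LinearMap.rTensor W A + LinearMap.lTensor V B)

theorem tD_apply (A : Module.End K V) (B : Module.End K W) (v : V) (w : W) :
    tD b A B (b (v ⊗ₜ w)) = b (A v ⊗ₜ w) + b (v ⊗ₜ B w) := by
  show b ((LinearMap.rTensor W A + LinearMap.lTensor V B) (b.symm (b (v ⊗ₜ w)))) = _
  rw [b.symm_apply_apply, LinearMap.add_apply, LinearMap.rTensor_tmul, LinearMap.lTensor_tmul,
    map_add]

theorem t_ext {X : Type} [AddCommGroup X] [Module K X] {f g : T →ₗ[K] X}
    (h : ∀ v w, f (b (v ⊗ₜ w)) = g (b (v ⊗ₜ w))) : f = g := by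
  have h1 : f.comp (b : V ⊗[K] W →ₗ[K] T) = g.comp (b : V ⊗[K] W →ₗ[K] T) :=
    TensorProduct.ext' h
  refine LinearMap.ext fun z => ?_
  have h2 := LinearMap.congr_fun h1 (b.symm z)
  rw [LinearMap.comp_apply, LinearMap.comp_apply, LinearEquiv.coe_coe, b.apply_symm_apply] at h2
  exact h2

theorem tD_unique {A : Module.End K V} {B : Module.End K W} {C : Module.End K T}
    (h : ∀ v w, C (b (v ⊗ₜ w)) = b (A v ⊗ₜ w) + b (v ⊗ₜ B w)) : C = tD b A B :=
  t_ext b fun v w => by rw [h, tD_apply]

theorem tD_add (A A' : Module.End K V) (B B' : Module.End K W) :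
    tD b (A + A') (B + B') = tD b A B + tD b A' B' :=
  t_ext b fun v w => by
    rw [LinearMap.add_apply, tD_apply, tD_apply, tD_apply, LinearMap.add_apply,
      LinearMap.add_apply, TensorProduct.add_tmul, TensorProduct.tmul_add, map_add, map_add]
    abel

theorem tD_comm {A A' : Module.End K V} {B B' : Module.End K W} (hA : A * A' = A' * A)
    (hB : B * B' = B' * B) : tD b A B * tD b A' B' = tD b A' B' * tD b A B :=
  t_ext b fun v w => by
    have h1 : A (A' v) = A' (A v) := LinearMap.congr_fun hA v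
    have h2 : B (B' w) = B' (B w) := LinearMap.congr_fun hB w
    rw [Module.End.mul_apply, Module.End.mul_apply, tD_apply, tD_apply, map_add, map_add,
      tD_apply, tD_apply, tD_apply, tD_apply, h1, h2]
    abel

theorem comm_rl (A : Module.End K V) (B : Module.End K W) :
    Commute (LinearMap.rTensor W A : Module.End K (V ⊗[K] W)) (LinearMap.lTensor V B) :=
  TensorProduct.ext' fun _ _ => rfl

theorem tD_nilp {A : Module.End K V} {B : Module.End K W} (hA : IsNilpotent A)
    (hB : IsNilpotent B) : IsNilpotent (tD b A B) := by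
  refine IsNilpotent.map ?_ (b.conjAlgEquiv K)
  refine (comm_rl A B).isNilpotent_add ?_ ?_
  · obtain ⟨n, hn⟩ := hA
    exact ⟨n, by rw [LinearMap.rTensor_pow, hn, LinearMap.rTensor_zero]⟩
  · obtain ⟨n, hn⟩ := hB
    exact ⟨n, by rw [LinearMap.lTensor_pow, hn, LinearMap.lTensor_zero]⟩

theorem aeval_rTensor (A : Module.End K V) (q : Polynomial K) :
    Polynomial.aeval (LinearMap.rTensor W A : Module.End K (V ⊗[K] W)) q =
      LinearMap.rTensor W (Polynomial.aeval A q) := by
  induction q using Polynomial.induction_on' with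
  | add p q hp hq => rw [map_add, map_add, hp, hq, LinearMap.rTensor_add]
  | monomial n a =>
    rw [Polynomial.aeval_monomial, Polynomial.aeval_monomial, ← Algebra.smul_def,
      ← Algebra.smul_def, LinearMap.rTensor_smul, LinearMap.rTensor_pow]

theorem aeval_lTensor (B : Module.End K W) (q : Polynomial K) :
    Polynomial.aeval (LinearMap.lTensor V B : Module.End K (V ⊗[K] W)) q =
      LinearMap.lTensor V (Polynomial.aeval B q) := by
  induction q using Polynomial.induction_on' with
  | add p q hp hq => rw [map_add, map_add, hp, hq, LinearMap.lTensor_add]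
  | monomial n a =>
    rw [Polynomial.aeval_monomial, Polynomial.aeval_monomial, ← Algebra.smul_def,
      ← Algebra.smul_def, LinearMap.lTensor_smul, LinearMap.lTensor_pow]

theorem ss_conj {A : Module.End K V} (hA : A.IsSemisimple) (e : V ≃ₗ[K] T) :
    (e.conjAlgEquiv K A : Module.End K T).IsSemisimple := by
  refine Module.End.isSemisimple_of_squarefree_aeval_eq_zero hA.minpoly_squarefree ?_
  rw [← AlgEquiv.coe_toAlgHom, Polynomial.aeval_algHom_apply, minpoly.aeval, map_zero]

variable [CharZero K]

theorem tD_ss {A : Module.End K V} {B : Module.End K W} (hA : A.IsSemisimple)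
    (hB : B.IsSemisimple) : (tD b A B).IsSemisimple := by
  refine ss_conj ?_ b
  refine Module.End.IsSemisimple.add_of_commute (comm_rl A B) ?_ ?_
  · refine Module.End.isSemisimple_of_squarefree_aeval_eq_zero hA.minpoly_squarefree ?_
    rw [aeval_rTensor, minpoly.aeval, LinearMap.rTensor_zero]
  · refine Module.End.isSemisimple_of_squarefree_aeval_eq_zero hB.minpoly_squarefree ?_
    rw [aeval_lTensor, minpoly.aeval, LinearMap.lTensor_zero]

/-- contraction with a functional -/
noncomputable def ctr : Dual K V →ₗ[K] T →ₗ[K] W where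
  toFun := fun φ => ((TensorProduct.lid K W : K ⊗[K] W →ₗ[K] W).comp
    (LinearMap.rTensor W φ)).comp (b.symm : T →ₗ[K] V ⊗[K] W)
  map_add' := fun φ ψ => by
    rw [LinearMap.rTensor_add, LinearMap.comp_add, LinearMap.add_comp]
  map_smul' := fun c φ => by
    rw [LinearMap.rTensor_smul, LinearMap.comp_smul, LinearMap.smul_comp]
    rfl

theorem ctr_apply (φ : Dual K V) (v : V) (w : W) : ctr b φ (b (v ⊗ₜ w)) = φ v • w := by
  show TensorProduct.lid K W ((LinearMap.rTensor W φ) (b.symm (b (v ⊗ₜ w)))) = _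
  rw [b.symm_apply_apply, LinearMap.rTensor_tmul, TensorProduct.lid_tmul]

theorem ctr_tD (A : Module.End K V) (B : Module.End K W) (φ : Dual K V) (z : T) :
    ctr b φ (tD b A B z) = ctr b (φ.comp A) z + B (ctr b φ z) := by
  have h : (ctr b φ).comp (tD b A B) = ctr b (φ.comp A) + B.comp (ctr b φ) :=
    t_ext b fun v w => by
      rw [LinearMap.comp_apply, tD_apply, map_add, ctr_apply, ctr_apply, LinearMap.add_apply,
        ctr_apply, LinearMap.comp_apply, LinearMap.comp_apply, ctr_apply, map_smul]
  exact LinearMap.congr_fun h z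

theorem ctr_inj (z : T) (hz : ∀ φ, ctr b φ z = 0) : z = 0 := by
  let e := finBasis K V
  have h : (LinearMap.id : T →ₗ[K] T) =
      ∑ i, ((b : V ⊗[K] W →ₗ[K] T).comp (TensorProduct.mk K V W (e i))).comp (ctr b (e.coord i)) :=
    t_ext b fun v w => by
      rw [LinearMap.sum_apply]
      simp only [LinearMap.comp_apply, ctr_apply, LinearMap.id_apply, map_smul,
        TensorProduct.mk_apply, LinearEquiv.coe_coe]
      conv_lhs => rw [← e.sum_repr v, TensorProduct.sum_tmul, map_sum]
      refine Finset.sum_congr rfl fun i _ => ?_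
      rw [← TensorProduct.smul_tmul', map_smul, e.coord_apply]
  have h1 := LinearMap.congr_fun h z
  rw [LinearMap.sum_apply] at h1
  rw [LinearMap.id_apply] at h1
  rw [h1]
  refine Finset.sum_eq_zero fun i _ => ?_
  rw [LinearMap.comp_apply, hz, map_zero]

theorem tD_pow_ne {A : Module.End K V} {B : Module.End K W} {v w : V} (hv : A v = w)
    (hw : A w = 0) (hw0 : w ≠ 0) {m : ℕ} {u : W} (hu : (B ^ m) u ≠ 0) :
    (tD b A B ^ (m + 1)) (b (v ⊗ₜ u)) ≠ 0 := by
  have h1 : ∀ j, (tD b A B ^ j) (b (w ⊗ₜ u)) = b (w ⊗ₜ (B ^ j) u) := by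
    intro j
    induction j with
    | zero => rfl
    | succ j ih =>
      rw [pow_succ', Module.End.mul_apply, ih, tD_apply, hw, TensorProduct.zero_tmul, map_zero,
        zero_add, pow_succ', Module.End.mul_apply]
  have h2 : ∀ j, (tD b A B ^ (j + 1)) (b (v ⊗ₜ u)) = b (v ⊗ₜ (B ^ (j + 1)) u) +
      ((j + 1 : ℕ) : K) • b (w ⊗ₜ (B ^ j) u) := by
    intro j
    induction j with
    | zero =>
      rw [zero_add, pow_one, tD_apply, hv, pow_one, pow_zero, Nat.cast_one, one_smul, add_comm]
      rfl
    | succ j ih =>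
      rw [pow_succ' (tD b A B) (j + 1), Module.End.mul_apply, ih, map_add, map_smul, tD_apply,
        tD_apply, hv, hw, TensorProduct.zero_tmul, map_zero, zero_add, ← Module.End.mul_apply B,
        ← pow_succ', ← Module.End.mul_apply B, ← pow_succ', Nat.cast_succ (j + 1), add_smul,
        one_smul]
      abel
  have hwv : w ∉ Submodule.span K {v} := by
    intro h1
    obtain ⟨c, hc⟩ := Submodule.mem_span_singleton.1 h1
    have h2 := congrArg A hc
    rw [map_smul, hv, hw] at h2
    have h3 : c = 0 := (smul_eq_zero.1 h2).resolve_right hw0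
    rw [h3, zero_smul] at hc
    exact hw0 hc.symm
  obtain ⟨f, hf1, hf2⟩ := Submodule.exists_le_ker_of_notMem hwv
  have hfv : f v = 0 := hf2 (Submodule.mem_span_singleton_self v)
  intro h3
  have h4 := h2 m
  rw [h3] at h4
  have h5 := congrArg (ctr b f) h4
  rw [map_zero, map_add, map_smul, ctr_apply, ctr_apply, hfv, zero_smul, zero_add] at h5
  have h6 : (((m + 1 : ℕ) : K)) ≠ 0 := by exact_mod_cast Nat.succ_ne_zero m
  exact hu ((smul_eq_zero.1 ((smul_eq_zero.1 h5.symm).resolve_left h6)).resolve_left hf1)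

theorem tD_ker {A : Module.End K V} {B : Module.End K W} (hA : IsNilpotent A) (h0 : A ≠ 0)
    (j : ℕ) : finrank K (LinearMap.ker (tD b A B ^ (j + 1))) +
      2 * finrank K (LinearMap.ker (B ^ (j + 1))) ≤
      finrank K V * finrank K (LinearMap.ker (B ^ (j + 1))) +
        finrank K (LinearMap.ker (B ^ j)) + finrank K (LinearMap.ker (B ^ (j + 2))) :=
  ker_bound (ev := ctr b) (ctr_tD b A B) (ctr_inj b) hA h0 j

end

end Pool.Agent.W5h2.SL
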