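import Mathlib
import Pool.Agent.W5h2.SL.Def
import Pool.Agent.W5h2.SL.Fam
import Pool.Agent.W5h2.SL.Avg
import Pool.Agent.W5h2.SL.Tens
import Pool.Agent.W5h2.SL.Share

/-!
# The core of the argument
-/

set_option autoImplicit false
set_option linter.unusedSectionVars false

open Module TensorProduct LieAlgebra

namespace Pool.Agent.W5h2.SL

attribute [local instance 100] LieRing.ofAssociativeRing

theorem two_le_finrank {K : Type} [Field K] {V : Type} [AddCommGroup V] [Module K V]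
    [FiniteDimensional K V] {N : Module.End K V} (hn : IsNilpotent N) (h0 : N ≠ 0) :
    2 ≤ finrank K V := by
  obtain ⟨v, w, hv, hw, hw0⟩ := exists_jordan_pair hn h0
  have hli : LinearIndependent K ![w, v] := by
    rw [LinearIndependent.pair_iff]
    intro s t hst
    have h1 := congrArg N hst
    rw [map_add, map_smul, map_smul, hw, hv, smul_zero, zero_add, map_zero] at h1
    have h2 : t = 0 := (smul_eq_zero.1 h1).resolve_right hw0
    rw [h2, zero_smul, add_zero] at hst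
    exact ⟨(smul_eq_zero.1 hst).resolve_right hw0, h2⟩
  have h1 := hli.fintype_card_le_finrank
  rwa [Fintype.card_fin] at h1

/-- a Jordan pair inside a stable subspace -/
theorem exists_jordan_pair_in {K : Type} [Field K] {V : Type} [AddCommGroup V] [Module K V]
    {N : Module.End K V} (hn : IsNilpotent N) {U : Submodule K V} (hU : ∀ u ∈ U, N u ∈ U)
    (h0 : ∃ u ∈ U, N u ≠ 0) : ∃ v ∈ U, N v ≠ 0 ∧ N (N v) = 0 := by
  classical
  obtain ⟨u, hu, hNu⟩ := h0
  have hpow : ∀ m, (N ^ m) u ∈ U := by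
    intro m
    induction m with
    | zero => exact hu
    | succ m ih => rw [pow_succ', Module.End.mul_apply]; exact hU _ ih
  obtain ⟨m, hm⟩ := hn
  have hex : ∃ m, (N ^ m) u = 0 := ⟨m, by rw [hm]; rfl⟩
  have h1 : (N ^ (Nat.find hex)) u = 0 := Nat.find_spec hex
  have h2 : 2 ≤ Nat.find hex := by
    by_contra hlt
    have h3 : Nat.find hex = 0 ∨ Nat.find hex = 1 := by omega
    rcases h3 with h3 | h3
    · rw [h3, pow_zero] at h1
      apply hNu
      have h1' : u = 0 := h1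
      rw [h1', map_zero]
    · rw [h3, pow_one] at h1
      exact hNu h1
  refine ⟨(N ^ (Nat.find hex - 2)) u, hpow _, ?_, ?_⟩
  · rw [← Module.End.mul_apply, ← pow_succ']
    exact Nat.find_min hex (by omega)
  · have e : N (N ((N ^ (Nat.find hex - 2)) u)) = (N ^ (Nat.find hex - 2 + 1 + 1)) u := by
      rw [pow_succ', Module.End.mul_apply, pow_succ', Module.End.mul_apply]
    rw [e, show Nat.find hex - 2 + 1 + 1 = Nat.find hex by omega]
    exact h1

variable {p : ℕ} [Fact p.Prime] {Γ : Type} [Group Γ]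

section fam

variable {ι L : Type} {X : ι → Type} [LieRing L] [LieAlgebra ℚ_[p] L]
  [FiniteDimensional ℚ_[p] L] [∀ i, AddCommGroup (X i)] [∀ i, Module ℚ_[p] (X i)]
  [∀ i, FiniteDimensional ℚ_[p] (X i)]
  {r : ∀ i, Γ →* Module.End ℚ_[p] (X i)} {t : ∀ i, L →ₗ⁅ℚ_[p]⁆ Module.End ℚ_[p] (X i)}
  {θ : Γ → L ≃ₗ⁅ℚ_[p]⁆ L}

theorem semi_of_rad (h : Fam r t θ) (i : ι)
    (hss : ∀ x ∈ radical ℚ_[p] L, (t i x).IsSemisimple) : Semi (fun γ => r i γ) := by
  intro U hU
  obtain ⟨P, h1, h2, h3⟩ := exists_proj_lie hss U (fun x u hu => (h.act i).st U hU x u hu)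
  obtain ⟨C, hC1, hC2⟩ := h.com i P h3
  exact avg hC1 hC2 hU h1 h2

theorem bil_tD (h : Fam r t θ) {i j k : ι} (b : X i ⊗[ℚ_[p]] X j ≃ₗ[ℚ_[p]] X k)
    (hb : ∀ γ v w, b (r i γ v ⊗ₜ r j γ w) = r k γ (b (v ⊗ₜ w))) (x : L) :
    t k x = tD b (t i x) (t j x) :=
  tD_unique b fun v w =>
    h.bil i j k ((TensorProduct.mk ℚ_[p] (X i) (X j)).compr₂ (b : X i ⊗[ℚ_[p]] X j →ₗ[ℚ_[p]] X k))
      hb x v w

end fam

theorem semi_of_int {K Q : Type} [Field K] [AddCommGroup Q] [Module K Q]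
    {r : Γ → Module.End K Q} (h : SemiInt r ⊥ ⊤) : Semi r := by
  intro U hU
  obtain ⟨U', h1, -, -, h4, h5⟩ := h U hU bot_le le_top
  exact ⟨U', h1, ⟨disjoint_iff.2 h4, codisjoint_iff.2 h5⟩⟩

theorem int_of_semi {K Q : Type} [Field K] [AddCommGroup Q] [Module K Q]
    {r : Γ → Module.End K Q} (h : Semi r) : SemiInt r ⊥ ⊤ := by
  intro U hU _ _
  obtain ⟨U', h1, h2⟩ := h U hU
  exact ⟨U', h1, bot_le, le_top, disjoint_iff.1 h2.1, codisjoint_iff.1 h2.2⟩

section main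

variable [TopologicalSpace Γ]

theorem stable_bot (R : GRep p Γ) : R.Stable ⊥ := by
  intro γ u hu
  rw [Submodule.mem_bot] at hu ⊢
  rw [hu, map_zero]

/-- a stable subspace as a representation -/
noncomputable def GRep.sub (R : GRep p Γ) (U : Submodule ℚ_[p] R.V)
    (hU : Stab (fun γ => R.r γ) U) : GRep p Γ where
  V := U
  r :=
    { toFun := fun γ => (R.r γ).restrict (hU γ)
      map_one' := by
        refine LinearMap.ext fun u => Subtype.ext ?_
        show R.r 1 u = u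
        rw [map_one]; rfl
      map_mul' := fun a b => by
        refine LinearMap.ext fun u => Subtype.ext ?_
        show R.r (a * b) u = R.r a (R.r b u)
        rw [map_mul]; rfl }
  cts := fun v φ => by
    obtain ⟨g, hg⟩ := LinearMap.exists_extend φ
    have h1 := R.cts v g
    refine h1.congr fun γ => ?_
    rw [← hg]
    rfl

theorem int_of_sub {K Q : Type} [Field K] [AddCommGroup Q] [Module K Q]
    {r : Γ → Module.End K Q} {U : Submodule K Q} (hU : Stab r U)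
    (h : Semi (fun γ => (r γ).restrict (hU γ))) : SemiInt r ⊥ U := by
  intro W hW _ hWU
  obtain ⟨W', h1, h2⟩ := h (W.comap U.subtype) (fun γ u hu => hW γ _ hu)
  refine ⟨W'.map U.subtype, ?_, bot_le, ?_, ?_, ?_⟩
  · rintro γ _ ⟨u, hu, rfl⟩
    exact ⟨(r γ).restrict (hU γ) u, h1 γ u hu, rfl⟩
  · rintro _ ⟨u, hu, rfl⟩
    exact u.2
  · rw [eq_bot_iff]
    rintro _ ⟨hz1, ⟨u, hu, rfl⟩⟩
    have h3 : u ∈ W.comap U.subtype ⊓ W' := ⟨hz1, hu⟩
    rw [disjoint_iff.1 h2.1] at h3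
    have h4 : u = 0 := h3
    rw [h4]
    exact Submodule.zero_mem _
  · refine le_antisymm (sup_le hWU (by rintro _ ⟨u, hu, rfl⟩; exact u.2)) ?_
    intro z hz
    have h3 : (⟨z, hz⟩ : U) ∈ W.comap U.subtype ⊔ W' := by
      rw [codisjoint_iff.1 h2.2]; trivial
    obtain ⟨a, ha, c, hc, hac⟩ := Submodule.mem_sup.1 h3
    have h4 : z = (a : Q) + (c : Q) := (congrArg Subtype.val hac).symm
    rw [h4]
    exact Submodule.add_mem_sup ha ⟨c, hc, rfl⟩

variable [IsTopologicalGroup Γ] [CompactSpace Γ]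

theorem exists_fam' {ι : Type} [Finite ι] (F : ι → GRep p Γ) (hF : ∃ i, Nontrivial (F i).V) :
    ∃ (L : Type) (_ : LieRing L) (_ : LieAlgebra ℚ_[p] L) (_ : FiniteDimensional ℚ_[p] L)
      (t : ∀ i, L →ₗ⁅ℚ_[p]⁆ Module.End ℚ_[p] (F i).V) (θ : Γ → L ≃ₗ⁅ℚ_[p]⁆ L),
      Fam (fun i => (F i).r) t θ := by
  classical
  have : Fintype ι := Fintype.ofFinite ι
  have : Nontrivial (∀ i, (F i).V) := by
    obtain ⟨i, hi⟩ := hF
    exact Pi.nontrivial_at i
  obtain ⟨g, t, θ, h⟩ := exists_fam (r := fun i => (F i).r) (fun i => (F i).cts)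
  exact ⟨g, inferInstance, inferInstance, inferInstance, t, θ, h⟩

/-- a representation which is a sum of semisimple subrepresentations is semisimple -/
theorem semi_of_sup (R : GRep p Γ) (hR : Nontrivial R.V) (U : ℕ → Submodule ℚ_[p] R.V)
    (hU : ∀ i, R.SS ⊥ (U i)) (hs : ⨆ i, U i = ⊤) : R.SS ⊥ ⊤ := by
  obtain ⟨L, i1, i2, i3, t, θ, h⟩ := exists_fam' (fun _ : Unit => R) ⟨(), hR⟩
  have h1 : Semi (fun γ => R.r γ) := by
    refine semi_of_rad h () fun x hx => ?_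
    obtain ⟨N, S, hN, hS, hn, hss, hX⟩ := exists_jc (K := ℚ_[p]) (t () x)
    have hc : N * S = S * N := comm_of_adjoin hN (comm_of_adjoin hS rfl).symm
    have h2 : ∀ i, U i ≤ LinearMap.ker N := by
      intro i u hu
      obtain ⟨a1, a2, a3, a4⟩ := hU i
      exact nil_kills (h.act ()) a1 a2 a3 a4 hx hn hss hc hX u hu
    have h3 : LinearMap.ker N = ⊤ := by
      rw [eq_top_iff, ← hs]
      exact iSup_le h2
    have h4 : N = 0 := LinearMap.ker_eq_top.1 h3
    rw [hX, h4, zero_add]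
    exact hss
  exact ⟨stable_bot _, fun _ _ _ => trivial, le_top, int_of_semi h1⟩

/-- the family with three members -/
def fam3 (A B C : GRep p Γ) : Fin 3 → GRep p Γ
  | 0 => A
  | 1 => B
  | 2 => C

/-- a tensor product of semisimple representations is semisimple -/
theorem semi_prod (A B C : GRep p Γ) (b : A.V ⊗[ℚ_[p]] B.V ≃ₗ[ℚ_[p]] C.V)
    (hb : ∀ γ v w, b (A.r γ v ⊗ₜ B.r γ w) = C.r γ (b (v ⊗ₜ w))) (hA : A.SS ⊥ ⊤)
    (hB : B.SS ⊥ ⊤) (hnt : Nontrivial A.V) : C.SS ⊥ ⊤ := by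
  obtain ⟨L, i1, i2, i3, t, θ, h⟩ := exists_fam' (fam3 A B C) ⟨0, hnt⟩
  have hA' : Semi (fun γ => A.r γ) := semi_of_int hA.2.2.2
  have hB' : Semi (fun γ => B.r γ) := semi_of_int hB.2.2.2
  have h1 : Semi (fun γ => C.r γ) := by
    refine semi_of_rad h 2 fun x hx => ?_
    have hk := bil_tD h (i := 0) (j := 1) (k := 2) b hb x
    rw [hk]
    exact tD_ss b (rad_semisimple (h.act 0) hA' hx) (rad_semisimple (h.act 1) hB' hx)
  exact ⟨stable_bot _, fun _ _ _ => trivial, le_top, int_of_semi h1⟩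

theorem exists_data (F : ℕ → GRep p Γ)
    (b : ∀ m, (F 0).V ⊗[ℚ_[p]] (F (m + 1)).V ≃ₗ[ℚ_[p]] (F (m + 2)).V)
    (hb : ∀ m γ v w, b m ((F 0).r γ v ⊗ₜ (F (m + 1)).r γ w) = (F (m + 2)).r γ (b m (v ⊗ₜ w)))
    (U : Submodule ℚ_[p] (F 0).V) (hU : Stab (fun γ => (F 0).r γ) U) (hnt : Nontrivial (F 1).V)
    (n : ℕ) :
    ∃ (L : Type) (_ : LieRing L) (_ : LieAlgebra ℚ_[p] L) (_ : FiniteDimensional ℚ_[p] L)
      (tU : L →ₗ⁅ℚ_[p]⁆ Module.End ℚ_[p] U)
      (t : ∀ m : ℕ, m < n + 2 → L →ₗ⁅ℚ_[p]⁆ Module.End ℚ_[p] (F m).V) (θ : Γ → L ≃ₗ⁅ℚ_[p]⁆ L),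
      ((∀ x ∈ radical ℚ_[p] L, (tU x).IsSemisimple) → SemiInt (fun γ => (F 0).r γ) ⊥ U) ∧
      (∀ x u, ((tU x u : U) : (F 0).V) = t 0 (by omega) x (u : (F 0).V)) ∧
      (∀ m hm, Act (F m).r (t m hm) θ) ∧
      (∀ m (hm : m + 2 < n + 2) x, t (m + 2) hm x =
        tD (b m) (t 0 (by omega) x) (t (m + 1) (by omega) x)) := by
  obtain ⟨L, i1, i2, i3, t, θ, h⟩ := exists_fam'
    (fun i : Option (Fin (n + 2)) => i.elim ((F 0).sub U hU) (fun j => F j))
    ⟨some ⟨1, by omega⟩, hnt⟩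
  refine ⟨L, i1, i2, i3, t none, fun m hm => t (some ⟨m, hm⟩), θ, ?_, ?_, ?_, ?_⟩
  · intro hss
    exact int_of_sub hU (semi_of_rad h none hss)
  · intro x u
    exact h.lin none (some ⟨0, by omega⟩) U.subtype (fun _ _ => rfl) x u
  · intro m hm
    exact h.act (some ⟨m, hm⟩)
  · intro m hm x
    exact bil_tD h (i := some ⟨0, by omega⟩) (j := some ⟨m + 1, by omega⟩)
      (k := some ⟨m + 2, hm⟩) (b m) (hb m) x

theorem core (F : ℕ → GRep p Γ)
    (b : ∀ m, (F 0).V ⊗[ℚ_[p]] (F (m + 1)).V ≃ₗ[ℚ_[p]] (F (m + 2)).V)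
    (hb : ∀ m γ v w, b m ((F 0).r γ v ⊗ₜ (F (m + 1)).r γ w) = (F (m + 2)).r γ (b m (v ⊗ₜ w)))
    (U : Submodule ℚ_[p] (F 0).V) (hU : Stab (fun γ => (F 0).r γ) U)
    (hns : ¬ SemiInt (fun γ => (F 0).r γ) ⊥ U)
    (G : ∀ m, Submodule ℚ_[p] (F (m + 1)).V) (hG0 : G 0 ≠ ⊥)
    (hG : ∀ m, ∀ v ∈ U, ∀ w ∈ G m, b m (v ⊗ₜ w) ∈ G (m + 1)) (n : ℕ) :
    2 ≤ finrank ℚ_[p] (F 0).V ∧ ∃ N : Module.End ℚ_[p] (F (n + 1)).V,
      (∃ z ∈ G n, (N ^ n) z ≠ 0) ∧
      (∀ A B, (F (n + 1)).SS A B → ∀ u ∈ B, N u ∈ A) ∧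
      (finrank ℚ_[p] (LinearMap.ker N) : ℝ) ≤
        share (finrank ℚ_[p] (F 0).V) n 1 * finrank ℚ_[p] (F (n + 1)).V := by
  obtain ⟨z0, hz0, hz0'⟩ := Submodule.exists_mem_ne_zero_of_ne_bot hG0
  have hnt : Nontrivial (F 1).V := ⟨z0, 0, hz0'⟩
  obtain ⟨L, i1, i2, i3, tU, t, θ, hss, hlin, hact, hbil⟩ := exists_data F b hb U hU hnt n
  have hlt0 : 0 < n + 2 := by omega
  obtain ⟨x, hx, hxs⟩ : ∃ x ∈ radical ℚ_[p] L, ¬ (tU x).IsSemisimple := by
    by_contra hcon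
    push Not at hcon
    exact hns (hss hcon)
  obtain ⟨N0, S0, hN0, hS0, hn0, hss0, hX0⟩ := exists_jc (t 0 hlt0 x)
  have hc0 : N0 * S0 = S0 * N0 := comm_of_adjoin hN0 (comm_of_adjoin hS0 rfl).symm
  have htU : ∀ u ∈ U, t 0 hlt0 x u ∈ U := (hact 0 hlt0).st U hU x
  have hNU : ∀ u ∈ U, N0 u ∈ U := stab_of_adjoin hN0 htU
  have hSU : ∀ u ∈ U, S0 u ∈ U := stab_of_adjoin hS0 htU
  have hN0U : ∃ u ∈ U, N0 u ≠ 0 := by
    by_contra hcon
    push Not at hcon
    apply hxs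
    have e : tU x = (S0.restrict hSU : Module.End ℚ_[p] U) := by
      refine LinearMap.ext fun u => Subtype.ext ?_
      rw [hlin x u, hX0]
      show N0 u + S0 u = S0 u
      rw [hcon u u.2, zero_add]
    rw [e]
    exact Module.End.IsSemisimple.restrict (p := U) (hp := hSU) hss0
  obtain ⟨v, hvU, hv1, hv2⟩ := exists_jordan_pair_in hn0 hNU hN0U
  have hN0' : N0 ≠ 0 := by
    intro h0
    rw [h0] at hv1
    exact hv1 rfl
  have hd : 2 ≤ finrank ℚ_[p] (F 0).V := two_le_finrank (V := (F 0).V) hn0 hN0'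
  refine ⟨hd, ?_⟩
  set d := finrank ℚ_[p] (F 0).V with hdd
  have key : ∀ (m : ℕ) (hm : m + 1 < n + 2), ∃ N S : Module.End ℚ_[p] (F (m + 1)).V,
      IsNilpotent N ∧ S.IsSemisimple ∧ N * S = S * N ∧ t (m + 1) hm x = N + S ∧
      (∃ z ∈ G m, (N ^ m) z ≠ 0) ∧
      ∀ j, (finrank ℚ_[p] (LinearMap.ker (N ^ j)) : ℝ) ≤
        share d m j * finrank ℚ_[p] (F (m + 1)).V := by
    intro m
    induction m with
    | zero =>
      intro hm
      obtain ⟨N, S, hN, hS, hn, hss, hX⟩ := exists_jc (t (0 + 1) hm x)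
      refine ⟨N, S, hn, hss, comm_of_adjoin hN (comm_of_adjoin hS rfl).symm, hX,
        ⟨z0, hz0, hz0'⟩, ?_⟩
      intro j
      cases j with
      | zero =>
        rw [pow_zero, share_zero, zero_mul]
        have e : LinearMap.ker (1 : Module.End ℚ_[p] (F (0 + 1)).V) = ⊥ :=
          LinearMap.ker_id
        rw [e, finrank_bot, Nat.cast_zero]
      | succ j =>
        rw [share_start, one_mul]
        exact_mod_cast Submodule.finrank_le _
    | succ m ih =>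
      intro hm
      obtain ⟨N, S, hn, hss, hc, hX, ⟨z, hz, hz'⟩, hker⟩ := ih (by omega)
      have hk := hbil m hm x
      refine ⟨tD (b m) N0 N, tD (b m) S0 S, tD_nilp (b m) hn0 hn, tD_ss (b m) hss0 hss,
        tD_comm (b m) hc0 hc, ?_, ⟨b m (v ⊗ₜ z), hG m v hvU z hz,
          tD_pow_ne (b m) rfl hv2 hv1 hz'⟩, ?_⟩
      · rw [hk, hX0, hX]
        exact tD_add (b m) N0 S0 N S
      · have hD : finrank ℚ_[p] (F (m + 1 + 1)).V = d * finrank ℚ_[p] (F (m + 1)).V := by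
          rw [← (b m).finrank_eq, Module.finrank_tensorProduct]
        intro j
        cases j with
        | zero =>
          rw [pow_zero, share_zero, zero_mul]
          have e : LinearMap.ker (1 : Module.End ℚ_[p] (F (m + 1 + 1)).V) = ⊥ :=
            LinearMap.ker_id
          rw [e, finrank_bot, Nat.cast_zero]
        | succ j =>
          have h1 := tD_ker (b m) (A := N0) (B := N) hn0 hN0' j
          have h2 : (finrank ℚ_[p] (LinearMap.ker (tD (b m) N0 N ^ (j + 1))) : ℝ) +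
              2 * finrank ℚ_[p] (LinearMap.ker (N ^ (j + 1))) ≤
              d * finrank ℚ_[p] (LinearMap.ker (N ^ (j + 1))) +
              finrank ℚ_[p] (LinearMap.ker (N ^ j)) +
              finrank ℚ_[p] (LinearMap.ker (N ^ (j + 2))) := by exact_mod_cast h1
          have hd' : (2 : ℝ) ≤ d := by exact_mod_cast hd
          have h3 := mul_le_mul_of_nonneg_left (hker (j + 1)) (sub_nonneg.2 hd')
          have h4 := hker j
          have h5 := hker (j + 2)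
          rw [share_succ, hD, Nat.cast_mul]
          have h6 : (((d : ℝ) - 2) * share d m (j + 1) + share d m j + share d m (j + 2)) / d *
              (d * finrank ℚ_[p] (F (m + 1)).V) =
              (((d : ℝ) - 2) * share d m (j + 1) + share d m j + share d m (j + 2)) *
                finrank ℚ_[p] (F (m + 1)).V := by
            field_simp
          rw [h6]
          nlinarith
  obtain ⟨N, S, hn, hss, hc, hX, hpow, hker⟩ := key n (by omega)
  refine ⟨N, hpow, fun A B hAB => ?_, ?_⟩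
  · obtain ⟨hA, hB, hAB, hs⟩ := hAB
    exact nil_kills (hact (n + 1) (by omega)) hA hB hAB hs hx hn hss hc hX
  · have h1 := hker 1
    rwa [pow_one] at h1

end main

end Pool.Agent.W5h2.SL
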