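import Mathlib
import Pool.Agent.W5h2.SL.Core

/-!
# The dichotomy and its consequences
-/

set_option autoImplicit false
set_option linter.unusedSectionVars false

open Module TensorProduct Filter Topology

namespace Pool.Agent.W5h2.SL

variable {p : ℕ} [Fact p.Prime] {Γ : Type} [Group Γ] [TopologicalSpace Γ]
  [IsTopologicalGroup Γ] [CompactSpace Γ] {Var : Type} (T : Kun p Γ Var)

/-- the tower of the powers of `X` -/
def tower (X Y : Var) : ℕ → GRep p Γ
  | 0 => T.H X
  | m + 1 => T.H (T.pow X Y m)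

theorem gr_sup (X : Var) : ⨆ i, T.gr X i = ⊤ := (T.grading X).2.submodule_iSup_eq_top

theorem total_semi {X : Var} (h : ∀ i, T.SemiAt X i) : T.SemiTot X :=
  semi_of_sup (T.H X) (T.nz X) (T.gr X) h (gr_sup T X)

theorem not_int {X : Var} {i : ℕ} (h : ¬ T.SemiAt X i) : ¬ SemiInt (T.H X).op ⊥ (T.gr X i) :=
  fun h1 => h ⟨stable_bot _, (T.grading X).1 i, bot_le, h1⟩

theorem gr_ne_bot {X : Var} {i : ℕ} (h : ¬ T.SemiAt X i) : T.gr X i ≠ ⊥ := by
  intro h1
  refine not_int T h ?_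
  rw [h1]
  intro U hU _ hU2
  have h2 : U = ⊥ := le_bot_iff.1 hU2
  subst h2
  exact ⟨⊥, hU, le_rfl, le_rfl, inf_idem _, sup_idem _⟩

/-- the nilpotent operator, graded form -/
theorem exists_nil {X : Var} {i : ℕ} (h : ¬ T.SemiAt X i) (Y : Var)
    (G : ∀ m, (T.H (T.pow X Y m)).Sub) (hG0 : G 0 ≠ ⊥)
    (hG : ∀ m, Sends (T.kun X (T.pow X Y m)) (T.gr X i) (G m) (G (m + 1))) (n : ℕ) :
    2 ≤ (T.H X).deg ∧ ∃ N : Module.End ℚ_[p] (T.H (T.pow X Y n)).V,
      (∃ z ∈ G n, (N ^ n) z ≠ 0) ∧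
      (∀ A B, (T.H (T.pow X Y n)).SS A B → ∀ u ∈ B, N u ∈ A) ∧
      (finrank ℚ_[p] (LinearMap.ker N) : ℝ) ≤
        share (T.H X).deg n 1 * (T.H (T.pow X Y n)).deg :=
  core (tower T X Y) (fun m => T.kun X (T.pow X Y m)) (fun m => T.kun_r X (T.pow X Y m))
    (T.gr X i) ((T.grading X).1 i) (not_int T h) G hG0 hG n

theorem chain_kill {R : GRep p Γ} {N : Module.End ℚ_[p] R.V}
    (hN : ∀ A B, R.SS A B → ∀ u ∈ B, N u ∈ A) {U : R.Sub} {m : ℕ}
    (h : R.LoewyLE U m) : ∀ u ∈ U, (N ^ m) u = 0 := by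
  obtain ⟨F, h0, hm, hF⟩ := h
  have key : ∀ j ≤ m, ∀ u ∈ F j, (N ^ j) u = 0 := by
    intro j
    induction j with
    | zero =>
      intro _ u hu
      rw [h0, Submodule.mem_bot] at hu
      rw [hu, map_zero]
    | succ j ih =>
      intro hj u hu
      rw [pow_succ, Module.End.mul_apply]
      exact ih (by omega) _ (hN _ _ (hF j (by omega)) u hu)
  intro u hu
  exact key m le_rfl u (hm ▸ hu)

theorem not_loewy {R : GRep p Γ} {N : Module.End ℚ_[p] R.V}
    (hN : ∀ A B, R.SS A B → ∀ u ∈ B, N u ∈ A) {U : R.Sub} {n : ℕ}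
    (hz : ∃ z ∈ U, (N ^ n) z ≠ 0) {m : ℕ} (hm : m ≤ n) : ¬ R.LoewyLE U m := by
  intro h
  obtain ⟨z, hz1, hz2⟩ := hz
  apply hz2
  rw [show n = (n - m) + m by omega, pow_add, Module.End.mul_apply, chain_kill hN h z hz1,
    map_zero]

/-- the lower bound for the Loewy length in a fixed degree -/
theorem loewy_gr {X : Var} {i : ℕ} (h : ¬ T.SemiAt X i) (Y : Var) {j : ℕ}
    (hj : T.gr Y j ≠ ⊥) {n m : ℕ} (hm : m ≤ n) : ¬ T.LoewyAt (T.pow X Y n) (n * i + j) m := by
  have h0 : T.gr (T.pow X Y 0) (0 * i + j) ≠ ⊥ := by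
    rw [zero_mul, zero_add]
    exact hj
  obtain ⟨-, N, hz, hN, -⟩ := exists_nil T h Y (fun m => T.gr (T.pow X Y m) (m * i + j)) h0
    (fun m v hv w hw => by
      have h1 := T.kun_gr X (T.pow X Y m) i (m * i + j) v hv w hw
      rw [show i + (m * i + j) = (m + 1) * i + j by ring] at h1
      exact h1) n
  exact not_loewy hN hz hm

theorem top_ne_bot (Y : Var) : (⊤ : (T.H Y).Sub) ≠ ⊥ := by
  have := T.nz Y
  exact bot_ne_top.symm

/-- the lower bound for the Loewy length of the total cohomology -/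
theorem loewy_top {X : Var} {i : ℕ} (h : ¬ T.SemiAt X i) (Y : Var) {n m : ℕ}
    (hm : m ≤ n) : ¬ T.LoewyTot (T.pow X Y n) m := by
  obtain ⟨-, N, hz, hN, -⟩ := exists_nil T h Y (fun m => ⊤) (top_ne_bot T Y)
    (fun m v hv w hw => trivial) n
  exact not_loewy hN hz hm

/-- the bound for semisimple subquotients -/
theorem layer_bound {X : Var} {i : ℕ} (h : ¬ T.SemiAt X i) (Y : Var) (n : ℕ) :
    T.LayersLE (T.pow X Y n) (√(2 * (T.H X).deg / (n + 1))) := by
  intro A B hAB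
  obtain ⟨hd, N, -, hN, hs⟩ := exists_nil T h Y (fun m => ⊤) (top_ne_bot T Y)
    (fun m v hv w hw => trivial) n
  have h1 := rank_step B N A (hN A B hAB)
  have h2 : finrank ℚ_[p] ↥(B ⊓ LinearMap.ker N) ≤ finrank ℚ_[p] (LinearMap.ker N) :=
    Submodule.finrank_mono inf_le_right
  have h3 : (finrank ℚ_[p] B : ℝ) ≤ finrank ℚ_[p] (LinearMap.ker N) + finrank ℚ_[p] A := by
    exact_mod_cast h1.trans (Nat.add_le_add_right h2 _)
  have h4 := mul_le_mul_of_nonneg_right (share_le hd n)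
    (Nat.cast_nonneg (α := ℝ) (T.H (T.pow X Y n)).deg)
  show (finrank ℚ_[p] B : ℝ) - finrank ℚ_[p] A ≤ _
  linarith

theorem good_powers (X : Var) : T.GoodPowers X := by
  intro hX Y hY n
  induction n with
  | zero => exact total_semi T hY
  | succ n ih =>
    exact semi_prod (T.H X) (T.H (T.pow X Y n)) (T.H (T.pow X Y (n + 1)))
      (T.kun X (T.pow X Y n)) (T.kun_r X (T.pow X Y n)) (total_semi T hX) ih (T.nz X)

theorem bad_powers (X : Var) : T.BadPowers X := fun _ h Y n =>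
  ⟨fun _ hj _ hm => loewy_gr T h Y hj hm, layer_bound T h Y n⟩

theorem dim_pow (X Y : Var) (n : ℕ) : T.dim (T.pow X Y n) = n * T.dim X + T.dim Y := by
  induction n with
  | zero => rw [zero_mul, zero_add]; rfl
  | succ n ih =>
    show T.dim (T.prod X (T.pow X Y n)) = _
    rw [T.dim_prod, ih]
    ring

theorem loewy_one {R : GRep p Γ} {U : R.Sub} (h : R.SS ⊥ U) : R.LoewyLE U 1 := by
  refine ⟨fun j => if j = 0 then ⊥ else U, if_pos rfl, if_neg one_ne_zero, fun j hj => ?_⟩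
  have : j = 0 := by omega
  subst this
  exact h

theorem sublin_one : Tendsto (fun n : ℕ => (((fun _ => 1 : ℕ → ℕ) n : ℕ) : ℝ) / n) atTop
    (𝓝 0) := by
  have h := tendsto_one_div_atTop_nhds_zero_nat (𝕜 := ℝ)
  refine h.congr fun n => ?_
  norm_num

/-- a sublinear function does not exceed `n` at all multiples `(n + 1) a` -/
theorem sublin_false {f : ℕ → ℕ} (hf : Tendsto (fun n => (f n : ℝ) / n) atTop (𝓝 0)) (a : ℕ)
    (h : ∀ n, n < f (n * a + a)) : False := by
  rcases Nat.eq_zero_or_pos a with h0 | h0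
  · subst h0
    have h1 := h (f 0)
    rw [mul_zero] at h1
    exact lt_irrefl _ h1
  · have ha : (0 : ℝ) < a := by exact_mod_cast h0
    have h1 : ∀ᶠ n : ℕ in atTop, (f n : ℝ) / n < 1 / (2 * a) :=
      hf.eventually (gt_mem_nhds (by positivity))
    obtain ⟨K, hK⟩ := eventually_atTop.1 h1
    have h2 := hK ((K + 1) * a + a) (by nlinarith)
    have h3 : ((K + 1 : ℕ) : ℝ) < f ((K + 1) * a + a) := by exact_mod_cast h (K + 1)
    have h4 : (0 : ℝ) < (((K + 1) * a + a : ℕ) : ℝ) := by positivity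
    rw [div_lt_iff₀ h4] at h2
    have h5 : 1 / (2 * (a : ℝ)) * (((K + 1) * a + a : ℕ) : ℝ) = ((K : ℝ) + 2) / 2 := by
      push_cast
      field_simp
      ring
    rw [h5] at h2
    push_cast at h3
    have h6 : (0 : ℝ) ≤ K := Nat.cast_nonneg K
    linarith

theorem iff_loewyDeg : T.Semisimple ↔ T.LoewyDeg := by
  constructor
  · intro h
    exact ⟨fun _ => 1, sublin_one, fun X i => loewy_one (h X i)⟩
  · rintro ⟨f, hf, hf2⟩ X i
    by_contra hcon
    refine sublin_false hf i fun n => ?_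
    by_contra hlt
    exact loewy_gr T hcon X (gr_ne_bot T hcon) (not_lt.1 hlt) (hf2 (T.pow X X n) (n * i + i))

theorem iff_loewyDim : T.Semisimple ↔ T.LoewyDim := by
  constructor
  · intro h
    exact ⟨fun _ => 1, sublin_one, fun X => loewy_one (total_semi T (h X))⟩
  · rintro ⟨f, hf, hf2⟩ X i
    by_contra hcon
    refine sublin_false hf (T.dim X) fun n => ?_
    by_contra hlt
    have h1 := hf2 (T.pow X X n)
    rw [dim_pow] at h1
    exact loewy_top T hcon X (not_lt.1 hlt) h1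

theorem slope_arith {a r C : ℕ} (h : a < r) :
    ((r * (C + 1) - 1) * a + a) / r + C ≤ r * (C + 1) - 1 := by
  obtain ⟨b, rfl⟩ := Nat.exists_eq_add_of_lt h
  have h1 : 0 < (a + b + 1) * (C + 1) := by positivity
  have h2 : ((a + b + 1) * (C + 1) - 1) * a + a = (a + b + 1) * ((C + 1) * a) := by
    obtain ⟨q, hq⟩ := Nat.exists_eq_add_of_lt h1
    rw [hq, zero_add, Nat.add_sub_cancel]
    have h3 : (a + b + 1) * ((C + 1) * a) = (q + 1) * a := by
      rw [← mul_assoc, hq, zero_add]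
    rw [h3]
    ring
  rw [h2, Nat.mul_div_cancel_left _ (by omega)]
  have h4 : (C + 1) * a + C + 1 ≤ (a + b + 1) * (C + 1) := by nlinarith
  omega

/-- linear bounds of small slope, in a fixed degree -/
theorem slope_deg {r : ℕ} (h : T.SlopeDeg r) (X : Var) (i : ℕ) (hi : i < r) : T.SemiAt X i := by
  obtain ⟨C, hC⟩ := h
  by_contra hcon
  exact loewy_gr T hcon X (gr_ne_bot T hcon) (slope_arith hi)
    (hC (T.pow X X (r * (C + 1) - 1)) ((r * (C + 1) - 1) * i + i))

/-- linear bounds of small slope, in a fixed dimension -/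
theorem slope_dim {r : ℕ} (h : T.SlopeDim r) (X : Var) (hX : T.dim X < r) (i : ℕ) :
    T.SemiAt X i := by
  obtain ⟨C, hC⟩ := h
  by_contra hcon
  have h1 := hC (T.pow X X (r * (C + 1) - 1))
  rw [dim_pow] at h1
  exact loewy_top T hcon X (slope_arith hX) h1

theorem deg_pos (X : Var) : (0 : ℝ) < (T.H X).deg := by
  have := T.nz X
  have h1 : 0 < finrank ℚ_[p] (T.H X).V := finrank_pos
  exact_mod_cast h1

theorem iff_bigLayer : T.Semisimple ↔ T.BigLayer := by
  constructor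
  · intro h
    refine ⟨fun _ => 1, fun _ => one_pos, ?_, fun X => ⟨⊥, ⊤, total_semi T (h X), ?_⟩⟩
    · have h1 : Tendsto (fun n : ℕ => √(n : ℝ)) atTop atTop :=
        Real.tendsto_sqrt_atTop.comp tendsto_natCast_atTop_atTop
      refine h1.congr fun n => ?_
      rw [one_mul]
    · show 1 * ((T.H X).deg : ℝ) ≤ (finrank ℚ_[p] (⊤ : (T.H X).Sub) : ℝ) -
        finrank ℚ_[p] (⊥ : (T.H X).Sub)
      rw [finrank_bot, finrank_top, one_mul, Nat.cast_zero, sub_zero]
      exact le_rfl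
  · rintro ⟨g, hg0, hg, hg2⟩ X i
    by_contra hcon
    obtain ⟨d, hd⟩ : ∃ d : ℝ, d = ((T.H X).deg : ℝ) := ⟨_, rfl⟩
    have hd0 : 0 < d := hd ▸ deg_pos T X
    have key : ∀ n : ℕ, g (n * T.dim X + T.dim X) ≤ √(2 * d / (n + 1)) := by
      intro n
      obtain ⟨A, B, hAB, h1⟩ := hg2 (T.pow X X n)
      rw [dim_pow] at h1
      have h2 := layer_bound T hcon X n A B hAB
      rw [← hd] at h2
      exact le_of_mul_le_mul_right (h1.trans h2) (deg_pos T (T.pow X X n))
    rcases Nat.eq_zero_or_pos (T.dim X) with h0 | h0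
    · rw [h0] at key
      simp only [mul_zero, add_zero] at key
      obtain ⟨n, hn⟩ := exists_nat_gt (2 * d / (g 0) ^ 2)
      have h1 := key n
      have hg00 := hg0 0
      have h2 : (g 0) ^ 2 ≤ 2 * d / (n + 1) := by
        have h3 : (g 0) ^ 2 ≤ √(2 * d / (n + 1)) ^ 2 := pow_le_pow_left₀ hg00.le h1 2
        rwa [Real.sq_sqrt (by positivity)] at h3
      have hn1 : (0 : ℝ) < (n : ℝ) + 1 := by positivity
      rw [le_div_iff₀ hn1] at h2
      rw [div_lt_iff₀ (by positivity)] at hn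
      have h4 : 0 < (g 0) ^ 2 := by positivity
      nlinarith
    · have ha : (0 : ℝ) < T.dim X := by exact_mod_cast h0
      obtain ⟨K, hK⟩ := eventually_atTop.1 (hg.eventually (eventually_gt_atTop (√(2 * d * T.dim X))))
      have h1 := hK (K * T.dim X + T.dim X) (by nlinarith)
      have h2 := key K
      have h3 := mul_le_mul_of_nonneg_right h2
        (Real.sqrt_nonneg (((K * T.dim X + T.dim X : ℕ)) : ℝ))
      rw [← Real.sqrt_mul (by positivity)] at h3
      have h4 : 2 * d / ((K : ℝ) + 1) * (((K * T.dim X + T.dim X : ℕ)) : ℝ) =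
          2 * d * T.dim X := by
        push_cast
        field_simp
      rw [h4] at h3
      linarith

end Pool.Agent.W5h2.SL
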